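import Mathlib

namespace Pool.Agent.H.MP_189914_nt

structure IsC (c : ℕ → ℕ) : Prop where
  z : c 0 = 0
  le : ∀ i j, j < i → (j + 1) * (i - c j) ≤ c i
  ex : ∀ i, 1 ≤ i → ∃ j < i, c i = (j + 1) * (i - c j)

def sl (c : ℕ → ℕ) (i : ℕ) : ℕ := c (i + 1) - c i
def II (c : ℕ → ℕ) (p : ℕ) : ℕ := c (p + 1) + (p + 1) * sl c p

variable {c : ℕ → ℕ} (hc : IsC c)
include hc

namespace IsC

lemma ge (i : ℕ) : i ≤ c i := by
  rcases Nat.eq_zero_or_pos i with rfl | h
  · omega
  · have := hc.le i 0 h; rw [hc.z] at this; omega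

lemma le' (i j : ℕ) : (j + 1) * (i - c j) ≤ c i := by
  by_cases h : j < i
  · exact hc.le i j h
  · have := hc.ge j
    rw [show i - c j = 0 by omega]; simp

lemma leZ (i j : ℕ) : ((j : ℤ) + 1) * (i - c j) ≤ c i := by
  have := hc.le' i j
  by_cases h : c j ≤ i
  · zify [h] at this; exact this
  · have h1 : (i : ℤ) - c j ≤ 0 := by omega
    have : ((j : ℤ) + 1) * (i - c j) ≤ 0 := mul_nonpos_of_nonneg_of_nonpos (by positivity) h1
    omega

lemma exZ (i : ℕ) (hi : 1 ≤ i) : ∃ j < i, (c i : ℤ) = ((j : ℤ) + 1) * (i - c j) := by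
  obtain ⟨j, hj, h⟩ := hc.ex i hi
  have := hc.ge i
  by_cases h1 : c j ≤ i
  · zify [h1] at h; exact ⟨j, hj, h⟩
  · rw [show i - c j = 0 by omega] at h; omega

lemma one : c 1 = 1 := by
  obtain ⟨j, hj, h⟩ := hc.ex 1 le_rfl
  obtain rfl : j = 0 := by omega
  rw [hc.z] at h; omega

lemma conv (i : ℕ) : 2 * c (i + 1) ≤ c i + c (i + 1 + 1) := by
  obtain ⟨j, -, h⟩ := hc.exZ (i + 1) (by omega)
  have h1 := hc.leZ i j
  have h2 := hc.leZ (i + 1 + 1) j
  push_cast at h h2
  zify; nlinarith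

lemma lt_succ (i : ℕ) : c i < c (i + 1) := by
  induction i with
  | zero => rw [hc.z, hc.one]; omega
  | succ i ih => have := hc.conv i; omega

lemma mono : StrictMono c := strictMono_nat_of_lt_succ hc.lt_succ

lemma succ_eq (i : ℕ) : c (i + 1) = c i + sl c i := by
  have := hc.lt_succ i; unfold sl; omega

lemma sl_pos (i : ℕ) : 1 ≤ sl c i := by have := hc.lt_succ i; unfold sl; omega

lemma sl_mono : Monotone (sl c) := monotone_nat_of_le_succ fun i => by
  have := hc.conv i; have := hc.lt_succ i; unfold sl; omega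

lemma II_lt (p : ℕ) : II c p + 2 ≤ II c (p + 1) := by
  have h1 := hc.succ_eq (p + 1)
  have h2 := hc.sl_mono (Nat.le_succ p)
  have h3 := hc.sl_pos p
  unfold II; rw [h1]; nlinarith

lemma II_mono : StrictMono (II c) := strictMono_nat_of_lt_succ fun p => by
  have := hc.II_lt p; omega

lemma II_ge (p : ℕ) : p + 2 ≤ II c p := by
  have := hc.ge (p + 1); have := hc.sl_pos p; unfold II; nlinarith

lemma line_step (p i : ℕ) :
    ((p : ℤ) + 1 + 1) * (i - c (p + 1)) = ((p : ℤ) + 1) * (i - c p) + (i - II c p) := by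
  unfold II; rw [hc.succ_eq p]; push_cast; ring

lemma line_up (i q p : ℕ) (hq : q ≤ p) (h : ∀ r < p, II c r ≤ i) :
    ((q : ℤ) + 1) * (i - c q) ≤ ((p : ℤ) + 1) * (i - c p) := by
  induction p, hq using Nat.le_induction with
  | base => rfl
  | succ p _ ih =>
    have := ih (fun r hr => h r (by omega))
    have h2 := h p (by omega)
    push_cast; rw [hc.line_step]; omega

lemma line_down (i p q : ℕ) (hq : p ≤ q) (h : i ≤ II c p) :
    ((q : ℤ) + 1) * (i - c q) ≤ ((p : ℤ) + 1) * (i - c p) := by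
  induction q, hq using Nat.le_induction with
  | base => rfl
  | succ q hq ih =>
    have := hc.II_mono.monotone hq
    push_cast; rw [hc.line_step]; omega

lemma winZ (i p : ℕ) (h1 : ∀ r < p, II c r ≤ i) (h2 : i ≤ II c p) :
    (c i : ℤ) = ((p : ℤ) + 1) * (i - c p) := by
  refine le_antisymm ?_ (hc.leZ i p)
  rcases Nat.eq_zero_or_pos i with rfl | hi
  · rcases Nat.eq_zero_or_pos p with rfl | hp
    · simp [hc.z]
    · have := h1 0 hp; have := hc.II_ge 0; omega
  obtain ⟨j, -, h⟩ := hc.exZ i hi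
  rw [h]
  rcases le_total j p with h3 | h3
  · exact hc.line_up i j p h3 h1
  · exact hc.line_down i p j h3 h2

lemma winZ' (i p : ℕ) (h1 : II c p ≤ i) (h2 : i ≤ II c (p + 1)) :
    (c i : ℤ) = ((p : ℤ) + 2) * (i - c (p + 1)) := by
  have := hc.winZ i (p + 1) (fun r hr => (hc.II_mono.monotone (by omega)).trans h1) h2
  rw [this]; push_cast; ring

omit hc in
lemma c_le_II (p : ℕ) : c (p + 1) ≤ II c p := Nat.le_add_right _ _

lemma win (i p : ℕ) (h1 : II c p ≤ i) (h2 : i ≤ II c (p + 1)) :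
    c i = (p + 2) * (i - c (p + 1)) := by
  have := hc.winZ' i p h1 h2
  have h3 := (c_le_II p).trans h1
  zify [h3]; exact this

lemma sl_win (i p : ℕ) (h1 : II c p ≤ i) (h2 : i < II c (p + 1)) : sl c i = p + 2 := by
  have a := hc.winZ' i p h1 h2.le
  have b := hc.winZ' (i + 1) p (by omega) h2
  have d := hc.succ_eq i
  zify at d ⊢
  push_cast at b
  linarith

lemma II_zero : II c 0 = 2 := by simp [II, sl, hc.z, hc.one]

lemma exW (i : ℕ) (hi : 2 ≤ i) : ∃ p, II c p ≤ i ∧ i < II c (p + 1) := by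
  induction i, hi using Nat.le_induction with
  | base => exact ⟨0, by rw [hc.II_zero], by have := hc.II_lt 0; rw [hc.II_zero] at this; omega⟩
  | succ i _ ih =>
    obtain ⟨p, h1, h2⟩ := ih
    by_cases h : i + 1 < II c (p + 1)
    · exact ⟨p, by omega, h⟩
    · exact ⟨p + 1, by omega, by have := hc.II_lt (p + 1); omega⟩

lemma sl_succ_le (i : ℕ) (hi : 2 ≤ i) : sl c (i + 1) ≤ sl c i + 1 := by
  obtain ⟨p, h1, h2⟩ := hc.exW i hi
  rw [hc.sl_win i p h1 h2]
  by_cases h : i + 1 < II c (p + 1)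
  · rw [hc.sl_win (i + 1) p (by omega) h]; omega
  · rw [hc.sl_win (i + 1) (p + 1) (by omega) (by have := hc.II_lt (p + 1); omega)]

lemma II_succ (p : ℕ) : II c (p + 1) = c (p + 1) + (p + 3) * sl c (p + 1) := by
  unfold II; rw [hc.succ_eq (p + 1)]; ring

lemma ratio_mono (u v : ℕ) (h : u ≤ v) : c u * v ≤ c v * u := by
  have k : ∀ n, c n ≤ n * sl c n := by
    intro n
    induction n with
    | zero => simp [hc.z]
    | succ n ih =>
      have := hc.sl_mono (Nat.le_succ n)
      rw [hc.succ_eq n]; nlinarith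
  induction v, h using Nat.le_induction with
  | base => rfl
  | succ v hv ih =>
    rw [hc.succ_eq v]
    have := k u
    have := hc.sl_mono hv
    nlinarith

end IsC
end Pool.Agent.H.MP_189914_nt
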