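import Mathlib
import Pool.Agent.H.MP_189914_nt.A

namespace Pool.Agent.H.MP_189914_nt
open Finset

structure IsA (a : ℕ → ℕ) : Prop where
  z : a 0 = 0
  mono : Monotone a
  le : ∀ i j, (j + 1) * (i - a j) ≤ a i

noncomputable def loss (c a : ℕ → ℕ) (i : ℕ) : ℝ := max 0 (1 / (a i : ℝ) - 1 / (c i : ℝ))

structure Run (c a : ℕ → ℕ) (k m : ℕ) : Prop where
  hc : IsC c
  ha : IsA a
  k1 : 1 ≤ k
  km : k < m
  eq : ∀ q < k, a q = c q
  gt : ∀ q, k ≤ q → q < m → c q < a q
  le : a m ≤ c m

def Goal (c a : ℕ → ℕ) (m : ℕ) : Prop :=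
  ∑ i ∈ Icc m (II c (m - 1)), loss c a i ≤ ∑ q ∈ Ico 1 m, (1 / (c q : ℝ) - 1 / (a q : ℝ))

lemma IsA.ge {a : ℕ → ℕ} (ha : IsA a) (i : ℕ) : i ≤ a i := by
  have := ha.le i 0; rw [ha.z] at this; omega

lemma loss_nonneg (c a : ℕ → ℕ) (i : ℕ) : 0 ≤ loss c a i := le_max_left _ _

lemma inv_le_inv_nat {u v : ℕ} (h0 : 0 < u) (h : u ≤ v) : 1 / (v : ℝ) ≤ 1 / (u : ℝ) :=
  one_div_le_one_div_of_le (by exact_mod_cast h0) (by exact_mod_cast h)

variable {c a : ℕ → ℕ} {k m : ℕ}

lemma IsC.line_le (hc : IsC c) (i j m : ℕ) (hj : j ≤ m) (hi : II c (m - 1) ≤ i) :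
    (j + 1) * (i - c j) ≤ (m + 1) * (i - c m) := by
  have h := hc.line_up i j m hj (fun r hr => (hc.II_mono.monotone (by omega)).trans hi)
  by_cases h1 : c j ≤ i
  · by_cases h2 : c m ≤ i
    · zify [h1, h2]; exact h
    · have h3 : (i : ℤ) - c m ≤ 0 := by omega
      have h4 : ((m : ℤ) + 1) * (i - c m) ≤ 0 := mul_nonpos_of_nonneg_of_nonpos (by positivity) h3
      have h5 : (j + 1) * (i - c j) ≤ 0 := by zify [h1]; omega
      omega
  · rw [show i - c j = 0 by omega]; simp

lemma Run.big (h : Run c a k m) (i : ℕ) (hi : II c (m - 1) < i) : c (II c (m - 1)) ≤ a i := by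
  obtain ⟨n, rfl⟩ : ∃ n, m = n + 1 := ⟨m - 1, by have := h.km; omega⟩
  simp only [Nat.add_sub_cancel] at *
  have h1 := h.hc.win (II c n) n le_rfl (h.hc.II_mono.monotone (by omega))
  have h2 := h.ha.le i (n + 1)
  have h3 := h.le
  calc c (II c n) = (n + 2) * (II c n - c (n + 1)) := h1
    _ ≤ (n + 1 + 1) * (i - a (n + 1)) := Nat.mul_le_mul le_rfl (by omega)
    _ ≤ a i := h2

def exch (c a : ℕ → ℕ) (m : ℕ) (i : ℕ) : ℕ :=
  if i < m then c i else max (a i) (c (min i (II c (m - 1))))

lemma Run.mE (h : Run c a k m) : m ≤ II c (m - 1) := by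
  have := h.hc.II_ge (m - 1); have := h.km; omega

lemma Run.exch_isA (h : Run c a k m) : IsA (exch c a m) := by
  have hm : 0 < m := by have := h.km; omega
  have hE := h.mE
  have hmono := h.hc.mono.monotone
  refine ⟨by simp [exch, hm, h.hc.z], ?_, ?_⟩
  · intro i j hij
    unfold exch
    split_ifs with h1 h2 h2
    · exact hmono hij
    · exact le_max_of_le_right (hmono (by omega))
    · omega
    · exact max_le_max (h.ha.mono hij) (hmono (by omega))
  · intro i j
    unfold exch
    split_ifs with h1 h2 h2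
    · exact h.hc.le' i j
    · by_cases h3 : i ≤ II c (m - 1)
      · rw [min_eq_left h3]; exact le_max_of_le_right (h.hc.le' i j)
      · refine le_max_of_le_left ((h.hc.line_le i j m h1.le (by omega)).trans ?_)
        exact (Nat.mul_le_mul le_rfl (by have := h.le; omega)).trans (h.ha.le i m)
    · have := h.ha.ge j
      rw [show i - max (a j) (c (min j (II c (m - 1)))) = 0 by omega]; simp
    · refine le_max_of_le_left ((Nat.mul_le_mul le_rfl (by omega)).trans (h.ha.le i j))

lemma Run.exch_sum (h : Run c a k m) (g : Goal c a m) (N : ℕ) (hN : m ≤ N) :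
    ∑ i ∈ Icc 1 N, 1 / (a i : ℝ) ≤ ∑ i ∈ Icc 1 N, 1 / (exch c a m i : ℝ) := by
  have hm : 1 ≤ m := by have := h.km; omega
  have e : Icc 1 N = Ico 1 m ∪ Icc m N := by ext; simp; omega
  have d : Disjoint (Ico 1 m) (Icc m N) := by
    rw [Finset.disjoint_left]; intro x; simp; omega
  rw [e, sum_union d, sum_union d]
  have e1 : ∑ i ∈ Ico 1 m, 1 / (exch c a m i : ℝ) = ∑ i ∈ Ico 1 m, 1 / (c i : ℝ) :=
    sum_congr rfl fun i hi => by rw [exch, if_pos (mem_Ico.1 hi).2]
  have e2 : ∑ i ∈ Icc m N, (1 / (a i : ℝ) - 1 / (exch c a m i : ℝ)) ≤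
      ∑ i ∈ Icc m N, if i ≤ II c (m - 1) then loss c a i else 0 := by
    refine sum_le_sum fun i hi => ?_
    have hi := (mem_Icc.1 hi).1
    rw [exch, if_neg (by omega)]
    split_ifs with h1
    · rw [min_eq_left h1]
      rcases le_total (a i) (c i) with h2 | h2
      · rw [max_eq_right h2]; exact le_max_right _ _
      · rw [max_eq_left h2, sub_self]; exact le_max_left _ _
    · rw [min_eq_right (by omega), max_eq_left (h.big i (by omega)), sub_self]
  have e3 : ∑ i ∈ Icc m N, (if i ≤ II c (m - 1) then loss c a i else 0) ≤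
      ∑ i ∈ Icc m (II c (m - 1)), loss c a i := by
    rw [← sum_filter]
    refine sum_le_sum_of_subset_of_nonneg ?_ fun i _ _ => loss_nonneg _ _ _
    intro i; simp; omega
  unfold Goal at g
  rw [sum_sub_distrib] at e2 g
  linarith

lemma reduce (hc : IsC c) (hR : ∀ a k m, Run c a k m → Goal c a m) (N : ℕ) (a : ℕ → ℕ)
    (ha : IsA a) : ∑ i ∈ Icc 1 N, 1 / (a i : ℝ) ≤ ∑ i ∈ Icc 1 N, 1 / (c i : ℝ) := by
  have main : ∀ n k, N + 1 ≤ k + n → 1 ≤ k → ∀ a, IsA a → (∀ q < k, a q = c q) →
      ∑ i ∈ Icc 1 N, 1 / (a i : ℝ) ≤ ∑ i ∈ Icc 1 N, 1 / (c i : ℝ) := by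
    intro n
    induction n with
    | zero =>
      intro k hk _ a _ he
      exact le_of_eq (sum_congr rfl fun i hi => by rw [he i (by have := (mem_Icc.1 hi).2; omega)])
    | succ n ih =>
      intro k hk k1 a ha he
      have h0 : c k ≤ a k := by
        obtain ⟨j, hj, e⟩ := hc.ex k k1
        rw [e, ← he j hj]; exact ha.le k j
      rcases h0.eq_or_lt with h1 | h1
      · refine ih (k + 1) (by omega) (by omega) a ha fun q hq => ?_
        rcases Nat.lt_succ_iff_lt_or_eq.1 hq with h2 | rfl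
        · exact he q h2
        · exact h1.symm
      by_cases h2 : ∃ m, k < m ∧ m ≤ N ∧ a m ≤ c m
      · classical
        obtain ⟨h3, h4, h5⟩ := Nat.find_spec h2
        have hr : Run c a k (Nat.find h2) := ⟨hc, ha, k1, h3, he, fun q q1 q2 => by
          rcases q1.eq_or_lt with rfl | q1
          · exact h1
          · have := Nat.find_min h2 q2
            by_contra hh
            exact this ⟨q1, by omega, by omega⟩, h5⟩
        refine (hr.exch_sum (hR _ _ _ hr) N h4).trans
          (ih (k + 1) (by omega) (by omega) _ hr.exch_isA fun q hq => ?_)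
        rw [exch, if_pos (by omega)]
      · refine sum_le_sum fun i hi => ?_
        obtain ⟨i1, i2⟩ := mem_Icc.1 hi
        refine inv_le_inv_nat (by have := hc.ge i; omega) ?_
        rcases lt_trichotomy i k with h3 | rfl | h3
        · exact (he i h3).ge
        · exact h0
        · by_contra hh
          exact h2 ⟨i, h3, i2, by omega⟩
  exact main N 1 (by omega) le_rfl a ha fun q hq => by
    obtain rfl : q = 0 := by omega
    rw [ha.z, hc.z]

/-- sorting: finite version for arbitrary sequences -/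
lemma unsorted (hc : IsC c) (hR : ∀ a k m, Run c a k m → Goal c a m) (N : ℕ) (a : ℕ → ℕ)
    (ha : ∀ i j, 1 ≤ i → 1 ≤ j → (j + 1) * i ≤ a i + (j + 1) * a j) :
    ∑ i ∈ range N, 1 / (a (i + 1) : ℝ) ≤ ∑ i ∈ range N, 1 / (c (i + 1) : ℝ) := by
  classical
  set f : Fin N → ℕ := fun i => a (i + 1) with hf
  set σ := Tuple.sort f
  have hm : Monotone (f ∘ σ) := Tuple.monotone_sort f
  have pig : ∀ i : Fin N, ∃ i' : Fin N, i ≤ i' ∧ f i' ≤ f (σ i) := by
    intro i
    by_contra hh
    push Not at hh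
    have h1 : (Iic i).image σ ⊆ Iio i := by
      intro x hx
      obtain ⟨y, hy, rfl⟩ := mem_image.1 hx
      rw [mem_Iio]
      by_contra h2
      exact absurd (hm (mem_Iic.1 hy)) (not_le.2 (hh _ (not_lt.1 h2)))
    have h2 := card_le_card h1
    rw [card_image_of_injective _ σ.injective, Fin.card_Iic, Fin.card_Iio] at h2
    omega
  have ge : ∀ i, 1 ≤ i → i ≤ a i := by
    intro i hi
    have := ha i i hi hi
    by_contra hh
    have : a i + 1 ≤ i := by omega
    nlinarith
  set M := ∑ i, f i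
  have hM : ∀ i, f i ≤ M := fun i => single_le_sum (f := f) (fun _ _ => Nat.zero_le _) (mem_univ i)
  let b : ℕ → ℕ := fun i => if i = 0 then 0 else if h : i - 1 < N then f (σ ⟨i - 1, h⟩)
    else M + i * i
  have bge : ∀ i, i ≤ b i := by
    intro i
    simp only [b]
    split_ifs with h1 h2
    · omega
    · obtain ⟨i', h3, h4⟩ := pig ⟨i - 1, h2⟩
      have := ge (i' + 1) (by omega)
      have h5 : i - 1 ≤ i' := h3
      simp only [hf] at h4 ⊢
      omega
    · nlinarith
  have hb : IsA b := by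
    refine ⟨by simp [b], ?_, ?_⟩
    · intro i j hij
      simp only [b]
      split_ifs with h1 h2 h3 h4 h5 h6 h7 h8 <;> try omega
      · exact hm (by simp only [Fin.mk_le_mk]; omega)
      · exact (hM _).trans (Nat.le_add_right _ _)
      · nlinarith
    · intro i j
      by_cases hij : i ≤ j
      · have := bge j
        rw [show i - b j = 0 by omega]; simp
      rcases Nat.eq_zero_or_pos j with rfl | hj
      · have := bge i
        simpa [b] using this
      by_cases h2 : i - 1 < N
      · have h3 : j - 1 < N := by omega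
        obtain ⟨i', i3, i4⟩ := pig ⟨i - 1, h2⟩
        obtain ⟨j', j3, j4⟩ := pig ⟨j - 1, h3⟩
        have i5 : i - 1 ≤ i' := i3
        have j5 : j - 1 ≤ j' := j3
        have e1 : b i = f (σ ⟨i - 1, h2⟩) := by simp only [b]; rw [if_neg (by omega), dif_pos h2]
        have e2 : b j = f (σ ⟨j - 1, h3⟩) := by simp only [b]; rw [if_neg (by omega), dif_pos h3]
        rw [← e1] at i4; rw [← e2] at j4
        have h4 := ha (i' + 1) (j' + 1) (by omega) (by omega)
        have h5 : (j' + 1 + 1) * (i' + 1 - a (j' + 1)) ≤ a (i' + 1) := by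
          rw [Nat.mul_sub]; omega
        simp only [hf] at i4 j4
        exact (Nat.mul_le_mul (by omega) (by omega)).trans (h5.trans i4)
      · have e1 : b i = M + i * i := by simp only [b]; rw [if_neg (by omega), dif_neg h2]
        rw [e1]
        exact (Nat.mul_le_mul (by omega) (by omega)).trans (Nat.le_add_left _ _)
  have key := reduce hc hR N b hb
  have cv : ∀ g : ℕ → ℝ, ∑ i ∈ Icc 1 N, g i = ∑ i ∈ range N, g (i + 1) := by
    intro g
    rw [show Icc 1 N = Ico 1 (N + 1) from rfl, sum_Ico_eq_sum_range]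
    simp [add_comm]
  rw [cv, cv] at key
  refine le_trans (le_of_eq ?_) key
  rw [sum_range, sum_range, ← Equiv.sum_comp σ]
  refine sum_congr rfl fun i _ => ?_
  simp [b, hf]

end Pool.Agent.H.MP_189914_nt
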