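import Mathlib
import Pool.Agent.H.MP_189914_nt.B

namespace Pool.Agent.H.MP_189914_nt

def SS : ℕ := 1152921504606846976

def cdiv (a b : ℕ) : ℕ := force b fun b => (a + b - 1) / b

def mx (a b : ℕ) : ℕ := force a fun a => force b fun b => cond (Nat.ble a b) b a

def mn (a b : ℕ) : ℕ := force a fun a => force b fun b => cond (Nat.ble a b) a b

@[simp] lemma mx_eq (a b : ℕ) : mx a b = max a b := by
  simp only [mx, force_eq]
  by_cases h : a ≤ b
  · rw [Nat.ble_eq_true_of_le h, max_eq_right h]; rfl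
  · rw [max_eq_left (by omega)]
    cases h1 : Nat.ble a b
    · rfl
    · exact absurd (Nat.le_of_ble_eq_true h1) h

@[simp] lemma mn_eq (a b : ℕ) : mn a b = min a b := by
  simp only [mn, force_eq]
  by_cases h : a ≤ b
  · rw [Nat.ble_eq_true_of_le h, min_eq_left h]; rfl
  · rw [min_eq_right (by omega)]
    cases h1 : Nat.ble a b
    · rfl
    · exact absurd (Nat.le_of_ble_eq_true h1) h

structure Bd where
  x : ℕ
  j : ℕ
  l : ℕ
  cx : ℕ
  h : ℕ

def fN (jh cp A B lo : ℕ) : ℕ := mn cp (cdiv (A * (jh - 1 - lo)) ((lo + 1) * B))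

def fH (jl jh cp A B y lo : ℕ) : ℕ :=
  mn cp (cdiv (A * (jh - 1 - lo) * (5 * y - 7 * (lo + 1) * jl)) ((lo + 1) * B))

def row (jl jh cp stv A B1 B2 y : ℕ) : List (ℕ × ℕ) → ℕ → ℕ → ℕ → List (ℕ × ℕ)
  | [], _, _, _ => []
  | (lo, v) :: t, hi, W, U =>
    force ((jl - hi) * stv) fun s =>
    force (fN jh cp A B1 lo) fun N =>
    force (fH jl jh cp A B2 y lo) fun H =>
    force (mx (mn (N + v - s) (H + v)) (mn (N + W) (H + U))) fun nv =>
    force (mx W (v - s)) fun W' => force (mx U v) fun U' =>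
    (lo, nv) :: row jl jh cp stv A B1 B2 y t lo W' U'

def cpv (x0 c0 c2 x y cy : ℕ) : ℕ :=
  (cond (Nat.ble c2 x) (mn (SS / (c0 + 1) + 1) (SS / ((x0 + 2) * (x + 1 - c2)) + 1))
    (SS / (c0 + 1) + 1) - SS / cy) * (y - x)

def blk (x0 c0 c2 : ℕ) (b b' : Bd) (V : List (ℕ × ℕ)) : List (ℕ × ℕ) :=
  force (cpv x0 c0 c2 b.x b'.x b'.cx) fun cp =>
  force (12 * SS * (b'.x - b.x)) fun A =>
  force (A / (5 * b.x * b'.x)) fun stv =>
  force (7 * b'.j * (b.x + 1)) fun B1 =>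
  force (35 * b.l * b'.x * (b.x + 1)) fun B2 =>
  row b.l b'.j cp stv A B1 B2 b'.x V b.l 0 0

def go (x0 c0 m2 c2 : ℕ) (V0 : List (ℕ × ℕ)) : List Bd → Bd → List (ℕ × ℕ)
  | [], _ => []
  | b' :: t, b => cond (Nat.ble m2 b.l) V0
      (cond (Nat.blt b.x b'.x) (blk x0 c0 c2 b b' (go x0 c0 m2 c2 V0 t b')) [])

def cls (cf rc top : ℕ) : ℕ → ℕ → List (ℕ × ℕ) → List (ℕ × ℕ)
  | 0, _, acc => acc
  | f + 1, q, acc => cond (Nat.ble top q) ((q, 0) :: acc)
      (force (cond (Nat.blt q cf) (q + 1) (q + q / rc)) fun q' => cls cf rc top f q' ((q, 0) :: acc))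

def isum (K : ℕ) : ℕ → ℕ → ℕ → ℕ
  | 0, _, acc => acc
  | n + 1, q, acc => force (acc + (SS / tb q - K)) fun a => force (q + 1) fun q' => isum K n q' a

def fin (K : ℕ) : List (ℕ × ℕ) → ℕ → ℕ → Bool
  | [], _, _ => false
  | (lo, v) :: t, hi, acc => Nat.ble v acc && (Nat.beq lo 0 ||
      force (isum K (hi - lo) lo acc) fun a => force (mn hi lo) fun h => fin K t h a)

def run (cf rc : ℕ) (b0 b1 : Bd) (t : List Bd) : Bool :=
  Nat.ble 24 b0.x && Nat.blt b0.l 6600 &&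
    fin (12 * SS / (5 * b0.x) + 1)
      (go b0.x b0.cx b1.x b1.cx (cls cf rc (3 * b1.cx / b1.x + 2) 200 0 []) t b0) b0.l 0

def allr (cf rc xe : ℕ) : List ℕ → Bd → List Bd → Bool
  | [], b, _ => Nat.ble xe b.x
  | k :: ks, b, t => match t.drop k with
    | [] => false
    | b1 :: t1 => run cf rc b b1 t && allr cf rc xe ks b1 t1

def cc (n h : ℕ) : ℕ :=
  cond (Nat.blt n 6600) (tb n)
    (cond (Nat.ble (tI h) n && Nat.ble n (tI (h + 1))) ((h + 2) * (n - tb (h + 1)))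
      (cond (Nat.ble (tI (h + 1)) n && Nat.ble n (tI (h + 2))) ((h + 3) * (n - tb (h + 2))) 0))

def bchk (b : Bd) : Bool :=
  force (cc (b.j - 1) b.h) fun u => force (cc b.j b.h) fun v => force (cc (b.j + 1) b.h) fun w =>
  Nat.blt b.h 6590 && Nat.blt 1 b.j && Nat.blt 0 u && Nat.blt 0 v && Nat.blt 0 w &&
    Nat.ble (v + b.j * (v - u)) b.x && Nat.ble b.x (w + (b.j + 1) * (w - v)) &&
    (Nat.beq b.l b.j || (Nat.beq b.l (b.j + 1) && Nat.beq b.x (w + (b.j + 1) * (w - v)))) &&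
    Nat.beq b.cx ((b.j + 1) * (b.x - v))

end Pool.Agent.H.MP_189914_nt
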