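import Mathlib
import Pool.Agent.H.MP_189914_nt.G0

namespace Pool.Agent.H.MP_189914_nt

structure En where
  i : ℕ
  b : ℕ
  ci : ℕ
  l : ℕ

noncomputable def updK (j1 α : ℕ) (K : List En → ℕ → Bool) (B : List En) : List En → ℕ → Bool :=
  List.rec (motive := fun _ => List En → ℕ → Bool) (fun acc s => K acc s)
    (fun e _ ih acc s => force (Nat.mul j1 (Nat.sub e.i α)) fun u =>
      cond (Nat.ble u e.b) (force (Nat.add s e.l) fun s' => ih (e :: acc) s')
        (cond (Nat.ble e.ci u) (ih acc s)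
          (force (Nat.sub (Nat.succ (Nat.div SS u)) (Nat.div SS e.ci)) fun l =>
            force (Nat.add s l) fun s' => ih (⟨e.i, u, e.ci, l⟩ :: acc) s'))) B

lemma updK_nil (j1 α : ℕ) (K : List En → ℕ → Bool) (acc : List En) (s : ℕ) :
    updK j1 α K [] acc s = K acc s := rfl

lemma updK_cons (j1 α : ℕ) (K : List En → ℕ → Bool) (e : En) (t acc : List En) (s : ℕ) :
    updK j1 α K (e :: t) acc s = force (j1 * (e.i - α)) fun u =>
      cond (Nat.ble u e.b) (force (s + e.l) fun s' => updK j1 α K t (e :: acc) s')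
        (cond (Nat.ble e.ci u) (updK j1 α K t acc s)
          (force (SS / u + 1 - SS / e.ci) fun l =>
            force (s + l) fun s' => updK j1 α K t (⟨e.i, u, e.ci, l⟩ :: acc) s')) := rfl

def cr (cq α : ℕ) : ℕ := Nat.sub (Nat.div SS cq) (Nat.succ (Nat.div SS α))

noncomputable def fut (α : ℕ) (L : List ℕ) : ℕ → ℕ :=
  List.rec (motive := fun _ => ℕ → ℕ) (fun acc => acc)
    (fun cq _ ih acc => force (Nat.add acc (cr cq (cond (Nat.ble α cq) (Nat.succ cq) α))) ih) L

lemma fut_nil (α acc : ℕ) : fut α [] acc = acc := rfl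

lemma fut_cons (α cq acc : ℕ) (t : List ℕ) : fut α (cq :: t) acc =
    force (acc + cr cq (cond (Nat.ble α cq) (cq + 1) α)) (fut α t) := rfl

noncomputable def node (cm : ℕ) : ℕ → ℕ → ℕ → ℕ → List ℕ → List En → ℕ → Bool
  | 0, _, _, _, _, _, _ => false
  | f + 1, j, α, cred, L, B, s => Nat.ble s (fut α L cred) ||
      match L with
      | [] => false
      | cq :: L' => force (mx α (cq + 1)) fun β => Nat.blt cm β || force (j + 1) fun j' =>
          (updK j' β (fun B2 s2 => force (cred + cr cq β) fun cr' =>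
            node cm f j' β cr' L' B2 s2) B [] 0 && force (β + 1) fun γ => node cm f j γ cred L B s)

def initK (M : ℕ) (K : List En → Bool) : ℕ → ℕ → List En → Bool
  | 0, _, acc => K acc
  | n + 1, i, acc => force (tb i) fun ci => force (SS / M + 1 - SS / ci) fun l =>
      force (i + 1) fun i' => initK M K n i' (⟨i, M, ci, l⟩ :: acc)

def mkL (k : ℕ) (K : List ℕ → Bool) : ℕ → List ℕ → Bool
  | 0, acc => K acc
  | n + 1, acc => force (tb (k + n)) fun v => mkL k K n (v :: acc)

noncomputable def bb (m k : ℕ) : Bool :=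
  force (mx m (tI (k - 1) + 1)) fun lo => force (tb m) fun cm => force (tb (m - 1) + 1) fun M =>
  force (tb (k - 1)) fun ck => force (m + 1) fun m' =>
  initK M (fun B => updK 1 0 (fun B _ => updK m' cm (fun B _ => updK k ck (fun B s =>
    mkL k (fun L => node cm 200 k 1 0 L B s) (m - k) []) B [] 0) B [] 0) B [] 0)
    (tI (m - 1) + 1 - lo) lo []

lemma bb1 : ∀ m < 22, ∀ k < m, 1 ≤ k → bb m k = true := by decide +kernel
lemma bb3 : ∀ k < 22, 1 ≤ k → bb 22 k = true := by decide +kernel
lemma bb4 : ∀ k < 23, 1 ≤ k → bb 23 k = true := by decide +kernel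
lemma bb5 : ∀ k < 24, 1 ≤ k → bb 24 k = true := by decide +kernel

end Pool.Agent.H.MP_189914_nt
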