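import Mathlib
import Pool.Agent.H.MP_189914_nt.C
import Pool.Agent.H.MP_189914_nt.D0

namespace Pool.Agent.H.MP_189914_nt
open Finset

lemma SS_pos : (0 : ℝ) < SS := by norm_num [SS]

lemma div_up (a b : ℕ) (hb : 0 < b) : (a : ℝ) / b ≤ (a / b + 1 : ℕ) := by
  have h := Nat.lt_div_mul_add hb (a := a)
  rw [div_le_iff₀ (by exact_mod_cast hb)]
  have : a ≤ (a / b + 1) * b := by nlinarith
  exact_mod_cast this

lemma sub_lo (u v : ℕ) : (u : ℝ) - v ≤ (u - v : ℕ) := by
  rcases le_total v u with h | h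
  · rw [Nat.cast_sub h]
  · have : (u : ℝ) ≤ v := by exact_mod_cast h
    have : (0 : ℝ) ≤ (u - v : ℕ) := by positivity
    linarith

lemma sub_hi (u v : ℕ) (x : ℝ) (h0 : 0 ≤ x) (h : (u : ℝ) - v ≤ x) : ((u - v : ℕ) : ℝ) ≤ x := by
  rcases le_total v u with h1 | h1
  · rwa [Nat.cast_sub h1]
  · rw [Nat.sub_eq_zero_of_le h1]; simpa using h0

variable {c a : ℕ → ℕ} {k m : ℕ}

lemma loss_le (i u v : ℕ) (h0 : 0 < u) (h : u ≤ a i) (h1 : 0 < c i) (h2 : c i ≤ v) :
    loss c a i * SS ≤ (SS / u + 1 - SS / v : ℕ) := by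
  have e1 := div_up SS u h0
  have e2 : ((SS / v : ℕ) : ℝ) ≤ SS / v := Nat.cast_div_le
  have e3 := sub_lo (SS / u + 1) (SS / v)
  have e4 := mul_le_mul_of_nonneg_left (inv_le_inv_nat h0 h) SS_pos.le
  have e5 := mul_le_mul_of_nonneg_left (inv_le_inv_nat h1 h2) SS_pos.le
  rw [mul_one_div, mul_one_div] at e4 e5
  unfold loss
  rw [max_mul_of_nonneg _ _ SS_pos.le, zero_mul, sub_mul, one_div_mul_eq_div, one_div_mul_eq_div]
  exact max_le (by positivity) (by linarith)

lemma cr_le (cq α A : ℕ) (h0 : 0 < cq) (h1 : cq ≤ α) (h2 : α ≤ A) :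
    (cr cq α : ℝ) ≤ (1 / (cq : ℝ) - 1 / A) * SS := by
  have e1 := div_up SS α (by omega)
  have e2 : ((SS / cq : ℕ) : ℝ) ≤ SS / cq := Nat.cast_div_le
  have e4 := mul_le_mul_of_nonneg_left (inv_le_inv_nat (show 0 < α by omega) h2) SS_pos.le
  have e5 := inv_le_inv_nat h0 (h1.trans h2)
  rw [mul_one_div, mul_one_div] at e4
  refine sub_hi (SS / cq) (SS / α + 1) _ (mul_nonneg (by linarith) SS_pos.le) ?_
  rw [sub_mul, one_div_mul_eq_div, one_div_mul_eq_div]
  linarith

def Ge (c a : ℕ → ℕ) (e : En) : Prop := 1 ≤ e.i ∧ e.ci = c e.i ∧ loss c a e.i * SS ≤ e.l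

noncomputable def tot (c a : ℕ → ℕ) (B : List En) : ℝ := (B.map fun e => loss c a e.i).sum

lemma loss_zero {i : ℕ} (h0 : 0 < c i) (h : c i ≤ a i) : loss c a i = 0 :=
  max_eq_left (by have := inv_le_inv_nat h0 h; linarith)

lemma updK_sound (hc : IsC c) (ha : IsA a) (j α : ℕ) (hα : a j ≤ α) (K : List En → ℕ → Bool)
    (T : ℝ) (B : List En) : ∀ (acc : List En) (s : ℕ), (∀ e ∈ B, Ge c a e) → (∀ e ∈ acc, Ge c a e) →
      tot c a acc * SS ≤ s → T ≤ tot c a B + tot c a acc → updK (j + 1) α K B acc s = true →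
      ∃ (B2 : List En) (s2 : ℕ), (∀ e ∈ B2, Ge c a e) ∧ T ≤ tot c a B2 ∧ tot c a B2 * SS ≤ s2 ∧ K B2 s2 = true := by
  induction B with
  | nil =>
    intro acc s _ h2 h3 h4 h5
    exact ⟨acc, s, h2, by simpa [tot] using h4, h3, h5⟩
  | cons e t ih =>
    intro acc s h1 h2 h3 h4 h5
    rw [updK_cons] at h5
    simp only [force_eq] at h5
    obtain ⟨g1, g2, g3⟩ := h1 e (by simp)
    have ht : ∀ e ∈ t, Ge c a e := fun e he => h1 e (by simp [he])
    have hu : (j + 1) * (e.i - α) ≤ a e.i :=
      (Nat.mul_le_mul le_rfl (by omega)).trans (ha.le e.i j)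
    have hp : 0 < c e.i := by have := hc.ge e.i; omega
    simp only [tot, List.map_cons, List.sum_cons] at h3 h4 ih ⊢
    generalize (j + 1) * (e.i - α) = u at *
    cases b1 : Nat.ble u e.b
    · cases b2 : Nat.ble e.ci u
      · rw [b1, b2] at h5
        have u0 : 0 < u := by
          by_contra hh
          rw [Nat.ble_eq_true_of_le (by omega)] at b1
          exact absurd b1 (by simp)
        have g4 := loss_le (c := c) e.i u e.ci u0 hu hp g2.ge
        refine ih _ _ ht ?_ ?_ ?_ h5
        · intro e' he'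
          rcases List.mem_cons.1 he' with rfl | he'
          · exact ⟨g1, g2, g4⟩
          · exact h2 e' he'
        · simp only [List.map_cons, List.sum_cons]
          rw [Nat.cast_add]; linarith
        · simp only [List.map_cons, List.sum_cons]; linarith
      · rw [b1, b2] at h5
        have := Nat.le_of_ble_eq_true b2
        rw [loss_zero hp (by omega)] at h4
        exact ih _ _ ht h2 h3 (by linarith) h5
    · rw [b1] at h5
      refine ih _ _ ht ?_ ?_ ?_ h5
      · intro e' he'
        rcases List.mem_cons.1 he' with rfl | he'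
        · exact ⟨g1, g2, g3⟩
        · exact h2 e' he'
      · simp only [List.map_cons, List.sum_cons]
        rw [Nat.cast_add]; linarith
      · simp only [List.map_cons, List.sum_cons]; linarith

noncomputable def cred (c a : ℕ → ℕ) (q : ℕ) : ℝ := 1 / (c q : ℝ) - 1 / (a q : ℝ)

lemma fut_sound (h : Run c a k m) (α : ℕ) (n : ℕ) : ∀ j acc, j + n = m → k ≤ j → α ≤ a j →
    (fut α ((List.range' j n).map c) acc : ℝ) ≤ acc + (∑ q ∈ Ico j m, cred c a q) * SS := by
  induction n with
  | zero => intro j acc h1 _ _; simp [fut_nil, ← h1]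
  | succ n ih =>
    intro j acc h1 h2 h3
    rw [List.range'_succ, List.map_cons, fut_cons, force_eq]
    refine (ih (j + 1) _ (by omega) (by omega) (h3.trans (h.ha.mono (by omega)))).trans ?_
    rw [sum_eq_sum_Ico_succ_bot (show j < m by omega), Nat.cast_add]
    have g := h.gt j h2 (by omega)
    have hp : 0 < c j := by have := h.hc.ge j; have := h.k1; omega
    have : (cr (c j) (cond (Nat.ble α (c j)) (c j + 1) α) : ℝ) ≤ cred c a j * SS := by
      cases b1 : Nat.ble α (c j)
      · refine cr_le _ _ _ hp ?_ h3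
        by_contra hh
        rw [Nat.ble_eq_true_of_le (by simp at hh; omega)] at b1
        exact absurd b1 (by simp)
      · exact cr_le _ _ _ hp (by simp) g
    linarith

lemma node_sound (h : Run c a k m) (T : ℝ) (f : ℕ) :
    ∀ (j n α cd : ℕ) (B : List En) (s : ℕ), j + n = m → k ≤ j → α ≤ a j →
    (cd : ℝ) ≤ (∑ q ∈ Ico 1 j, cred c a q) * SS → (∀ e ∈ B, Ge c a e) → T ≤ tot c a B →
    tot c a B * SS ≤ s → node (c m) f j α cd ((List.range' j n).map c) B s = true →
    T ≤ ∑ q ∈ Ico 1 m, cred c a q := by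
  induction f with
  | zero => intro j n α cd B s _ _ _ _ _ _ _ h8; simp [node] at h8
  | succ f ih =>
    intro j n α cd B s h1 h2 h3 h4 h5 h6 h7 h8
    have k1 := h.k1
    rw [node.eq_def] at h8
    simp only [Bool.or_eq_true] at h8
    rcases h8 with h8 | h8
    · have e1 : (s : ℝ) ≤ fut α ((List.range' j n).map c) cd := by
        exact_mod_cast Nat.le_of_ble_eq_true h8
      have e2 := fut_sound h α n j cd h1 h2 h3
      rw [← sum_Ico_consecutive _ (show 1 ≤ j by omega) (show j ≤ m by omega)]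
      refine h6.trans (le_of_mul_le_mul_right ?_ SS_pos)
      linarith
    · cases n with
      | zero => simp at h8
      | succ n =>
        have g := h.gt j h2 (by omega)
        have hp : 0 < c j := by have := h.hc.ge j; omega
        have g2 : a j ≤ c m := (h.ha.mono (by omega)).trans h.le
        rw [List.range'_succ, List.map_cons] at h8
        simp only [force_eq, mx_eq, Bool.or_eq_true, Bool.and_eq_true, Nat.blt_eq] at h8
        have g3 : max α (c j + 1) ≤ a j := max_le h3 g
        have g4 : c j ≤ max α (c j + 1) := by omega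
        generalize max α (c j + 1) = β at *
        rcases h8 with h8 | ⟨h8, h9⟩
        · omega
        rcases g3.eq_or_lt with g3 | g3
        · obtain ⟨B2, s2, b1, b2, b3, b4⟩ := updK_sound h.hc h.ha j β g3.ge _ T B [] 0 h5 (by simp)
            (by simp [tot]) (by simpa [tot] using h6) h8
          refine ih (j + 1) n β _ B2 s2 (by omega) (by omega) (g3.le.trans (h.ha.mono (by omega)))
            ?_ b1 b2 b3 b4
          rw [sum_Ico_succ_top (by omega), Nat.cast_add, add_mul]
          have := cr_le (c j) β (a j) hp g4 g3.le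
          unfold cred at *
          linarith
        · refine ih j (n + 1) (β + 1) cd B s h1 h2 g3 h4 h5 h6 h7 ?_
          rw [List.range'_succ, List.map_cons]; exact h9

lemma initK_sound (hc : IsC c) (M : ℕ) (hM : 0 < M) (K : List En → Bool) (n : ℕ) :
    ∀ i acc, 1 ≤ i → i + n < 6600 → (∀ x, i ≤ x → M ≤ a x) → (∀ e ∈ acc, Ge c a e) →
      initK M K n i acc = true → ∃ B, (∀ e ∈ B, Ge c a e) ∧
        tot c a B = tot c a acc + ∑ x ∈ Ico i (i + n), loss c a x ∧ K B = true := by
  induction n with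
  | zero => intro i acc _ _ _ h4 h5; exact ⟨acc, h4, by simp, h5⟩
  | succ n ih =>
    intro i acc h1 h2 h3 h4 h5
    simp only [initK, force_eq] at h5
    obtain ⟨B, b1, b2, b3⟩ := ih (i + 1) _ (by omega) (by omega) (fun x hx => h3 x (by omega))
      (fun e he => by
        rcases List.mem_cons.1 he with rfl | he
        · refine ⟨h1, (hc.tb_eq i (by omega)).symm, ?_⟩
          exact loss_le i M _ hM (h3 i le_rfl) (by have := hc.ge i; omega)
            (hc.tb_eq i (by omega)).le
        · exact h4 e he) h5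
    refine ⟨B, b1, ?_, b3⟩
    rw [b2, sum_eq_sum_Ico_succ_bot (show i < i + (n + 1) by omega),
      show i + 1 + n = i + (n + 1) by ring]
    simp only [tot, List.map_cons, List.sum_cons]
    ring

lemma mkL_sound (hc : IsC c) (k : ℕ) (K : List ℕ → Bool) (n : ℕ) : ∀ acc, k + n < 6600 →
    mkL k K n acc = K ((List.range' k n).map c ++ acc) := by
  induction n with
  | zero => intro acc _; rfl
  | succ n ih =>
    intro acc h
    rw [mkL, force_eq, ih _ (by omega), List.range'_concat, List.map_append, ← hc.tb_eq _ (by omega)]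
    simp

lemma Run.low (h : Run c a k m) (i : ℕ) (hi : i ≤ II c (k - 1)) : c i ≤ a i := by
  classical
  have ex : ∃ p, i ≤ II c p := ⟨_, hi⟩
  have h1 := h.hc.winZ i (Nat.find ex) (fun r hr => (not_le.1 (Nat.find_min ex hr)).le)
    (Nat.find_spec ex)
  have h2 : Nat.find ex ≤ k - 1 := Nat.find_min' ex hi
  have h3 := h.ha.le i (Nat.find ex)
  rw [h.eq _ (by have := h.k1; omega)] at h3
  generalize Nat.find ex = p at *
  by_cases h4 : c p ≤ i
  · zify [h4] at h3 ⊢; omega
  · have : ((p : ℤ) + 1) * (i - c p) ≤ 0 :=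
      mul_nonpos_of_nonneg_of_nonpos (by positivity) (by omega)
    omega

lemma Run.gtM (h : Run c a k m) (i : ℕ) (hi : m ≤ i) : c (m - 1) + 1 ≤ a i := by
  have := h.km
  exact (h.gt (m - 1) (by omega) (by omega)).trans_le (h.ha.mono (by omega))

lemma Run.small (h : Run c a k m) (hm : m ≤ 24) : Goal c a m := by
  have k1 := h.k1
  have km := h.km
  have hb : bb m k = true := by
    by_cases h1 : m < 22
    · exact bb1 m h1 k km k1
    · have : m = 22 ∨ m = 23 ∨ m = 24 := by omega
      rcases this with rfl | rfl | rfl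
      · exact bb3 k km k1
      · exact bb4 k km k1
      · exact bb5 k km k1
  have hE : II c (m - 1) ≤ 210 := by
    have := h.hc.II_mono.monotone (show m - 1 ≤ 23 by omega)
    rwa [h.hc.tI_eq 23 (by omega), show tI 23 = 210 by decide +kernel] at this
  have hk := h.hc.II_mono (show k - 1 < m - 1 by omega)
  have hmE := h.mE
  simp only [bb, force_eq, mx_eq] at hb
  rw [← h.hc.tI_eq _ (by omega), ← h.hc.tI_eq _ (by omega), ← h.hc.tb_eq _ (by omega),
    ← h.hc.tb_eq _ (by omega), ← h.hc.tb_eq _ (by omega)] at hb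
  set lo := max m (II c (k - 1) + 1)
  obtain ⟨B, b1, b2, b3⟩ := initK_sound (a := a) h.hc _ (by omega) _ _ lo [] (by omega) (by omega)
    (fun x hx => h.gtM x (by omega)) (by simp) hb
  have t0 : ∑ i ∈ Icc m (II c (m - 1)), loss c a i ≤ tot c a B := by
    rw [b2, show tot c a [] = 0 from by simp [tot], zero_add]
    rw [← sum_filter_ne_zero]
    refine sum_le_sum_of_subset_of_nonneg (fun x hx => ?_) fun _ _ _ => loss_nonneg _ _ _
    obtain ⟨hx, h0⟩ := mem_filter.1 hx
    rw [mem_Icc] at hx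
    rw [mem_Ico]
    have : ¬ x ≤ II c (k - 1) := fun hh =>
      h0 (loss_zero (by have := h.hc.ge x; omega) (h.low x hh))
    omega
  obtain ⟨B1, s1, c1, c2, -, c4⟩ := updK_sound h.hc h.ha 0 0 h.ha.z.le _ _ B [] 0 b1 (by simp)
    (by simp [tot]) (by simpa [tot] using t0) b3
  obtain ⟨B2, s2, d1, d2, -, d4⟩ := updK_sound h.hc h.ha m (c m) h.le _ _ B1 [] 0 c1 (by simp)
    (by simp [tot]) (by simpa [tot] using c2) c4
  rw [show k = k - 1 + 1 by omega] at d4
  obtain ⟨B3, s3, e1, e2, e3, e4⟩ := updK_sound h.hc h.ha (k - 1) _ (h.eq _ (by omega)).le _ _ B2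
    [] 0 d1 (by simp) (by simp [tot]) (by simpa [tot] using d2) d4
  rw [show k - 1 + 1 = k by omega, mkL_sound h.hc _ _ _ _ (by omega), List.append_nil] at e4
  refine node_sound h _ 200 k (m - k) 1 0 B3 s3 (by omega) le_rfl (k1.trans (h.ha.ge k)) ?_ e1 e2
    e3 e4
  rw [sum_eq_zero fun q hq => by rw [cred, h.eq q (mem_Ico.1 hq).2, sub_self]]
  simp

end Pool.Agent.H.MP_189914_nt
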