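import Mathlib
import Pool.Agent.H.MP_189914_nt.D

namespace Pool.Agent.H.MP_189914_nt
open Finset

noncomputable def tA (q cq hi i : ℕ) : ℝ :=
  5 * hi * cq / (((q : ℝ) + 1) * (12 * i - 5 * hi) * (i - cq))

noncomputable def tB (q cq i : ℕ) : ℝ :=
  max 0 (12 / (7 * (q : ℝ) * i) - 1 / (((q : ℝ) + 1) * (i - cq)))

def sa (q cq hi : ℕ) : ℕ → ℕ → ℕ → ℕ
  | 0, _, acc => acc
  | n + 1, i, acc => force (acc + (SS * (5 * hi * cq) / ((q + 1) * (12 * i - 5 * hi) * (i - cq)) + 1))
      fun s => force (i + 1) fun i' => sa q cq hi n i' s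

def sb (q cq : ℕ) : ℕ → ℕ → ℕ → ℕ
  | 0, _, acc => acc
  | n + 1, i, acc => force (acc + (12 * SS / (7 * q * i) + 1 - SS / ((q + 1) * (i - cq))))
      fun s => force (i + 1) fun i' => sb q cq n i' s

def own (p : ℕ) : Bool :=
  force (tI p) fun lo => force (tI (p + 1)) fun hi => force (tb (p + 1)) fun cq =>
  force (p + 1) fun q => force (lo + 1) fun i =>
  Nat.blt (5 * hi) (12 * (lo + 1)) && Nat.ble (sa q cq hi (hi - lo) i 0) SS &&
    Nat.ble (sb q cq (hi - lo) i 0 + (12 * SS / (5 * hi) + 1)) (SS / cq)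

lemma own_ok : ∀ p < 212, 4 ≤ p → own p = true := by decide +kernel

lemma sa_sound (q cq hi n : ℕ) : ∀ i acc, 5 * hi < 12 * i → cq < i →
    acc + (∑ x ∈ Ico i (i + n), tA q cq hi x) * SS ≤ sa q cq hi n i acc := by
  induction n with
  | zero => intro i acc _ _; simp [sa]
  | succ n ih =>
    intro i acc h1 h2
    simp only [sa, force_eq]
    refine le_trans ?_ (ih (i + 1) _ (by omega) (by omega))
    rw [sum_eq_sum_Ico_succ_bot (show i < i + (n + 1) by omega),
      show i + 1 + n = i + (n + 1) by ring, Nat.cast_add acc]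
    have := div_up (SS * (5 * hi * cq)) ((q + 1) * (12 * i - 5 * hi) * (i - cq))
      (Nat.mul_pos (Nat.mul_pos (by omega) (by omega)) (by omega))
    have e : tA q cq hi i * SS = ((SS * (5 * hi * cq) : ℕ) : ℝ) /
        (((q + 1) * (12 * i - 5 * hi) * (i - cq) : ℕ) : ℝ) := by
      unfold tA
      push_cast [Nat.cast_sub h1.le, Nat.cast_sub h2.le]
      ring
    linarith

lemma sb_sound (q cq n : ℕ) (hq : 0 < q) : ∀ i acc, cq < i →
    acc + (∑ x ∈ Ico i (i + n), tB q cq x) * SS ≤ sb q cq n i acc := by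
  induction n with
  | zero => intro i acc _; simp [sb]
  | succ n ih =>
    intro i acc h2
    simp only [sb, force_eq]
    refine le_trans ?_ (ih (i + 1) _ (by omega))
    rw [sum_eq_sum_Ico_succ_bot (show i < i + (n + 1) by omega),
      show i + 1 + n = i + (n + 1) by ring, Nat.cast_add acc]
    have e1 := div_up (12 * SS) (7 * q * i) (Nat.mul_pos (by omega) (by omega))
    have e2 : ((SS / ((q + 1) * (i - cq)) : ℕ) : ℝ) ≤ SS / ((q + 1) * (i - cq) : ℕ) :=
      Nat.cast_div_le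
    have e3 := sub_lo (12 * SS / (7 * q * i) + 1) (SS / ((q + 1) * (i - cq)))
    have e : tB q cq i * SS ≤ (12 * SS / (7 * q * i) + 1 - SS / ((q + 1) * (i - cq)) : ℕ) := by
      unfold tB
      rw [max_mul_of_nonneg _ _ SS_pos.le, zero_mul]
      refine max_le (by positivity) (le_trans (le_of_eq ?_) ((sub_le_sub e1 e2).trans e3))
      push_cast [Nat.cast_sub h2.le]
      ring
    linarith

def Own (q cq lo hi : ℕ) : Prop :=
  5 * hi < 12 * (lo + 1) ∧ ∑ i ∈ Ioc lo hi, tA q cq hi i ≤ 1 ∧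
    ∑ i ∈ Ioc lo hi, tB q cq i ≤ 1 / (cq : ℝ) - 12 / (5 * hi)

lemma own_an (q c lo hi : ℕ) (hc : 0 < c) (h1 : 5 * c ≤ 2 * lo) (h2 : hi ≤ 3 * c) (h3 : lo ≤ hi)
    (h4 : 7 * (hi - lo) ≤ 9 * (q + 1)) (hq : 213 ≤ q) : Own q c lo hi := by
  have c0 : (0 : ℝ) < c := by exact_mod_cast hc
  have r1 : 5 * (c : ℝ) ≤ 2 * lo := by exact_mod_cast h1
  have r2 : (hi : ℝ) ≤ 3 * c := by exact_mod_cast h2
  have r3 : (lo : ℝ) ≤ hi := by exact_mod_cast h3
  have r4 : 7 * ((hi - lo : ℕ) : ℝ) ≤ 9 * (q + 1) := by exact_mod_cast h4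
  have rq : (213 : ℝ) ≤ q := by exact_mod_cast hq
  have key : ∀ (f : ℕ → ℝ) (t : ℝ), 0 ≤ t → (∀ i : ℕ, (lo : ℝ) ≤ i → (i : ℝ) ≤ hi →
      f i ≤ t / (q + 1)) → ∑ i ∈ Ioc lo hi, f i ≤ 9 / 7 * t := by
    intro f t t0 hf
    refine (sum_le_card_nsmul _ _ (t / (q + 1)) fun i hi => ?_).trans ?_
    · rw [mem_Ioc] at hi
      exact hf i (by exact_mod_cast hi.1.le) (by exact_mod_cast hi.2)
    · rw [Nat.card_Ioc, nsmul_eq_mul, ← mul_div_assoc, div_le_iff₀ (by positivity)]
      nlinarith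
  refine ⟨by omega, (key _ (2 / 3) (by norm_num) fun i i1 i2 => ?_).trans (by norm_num), ?_⟩
  · unfold tA
    have a1 : 15 * (c : ℝ) ≤ 12 * i - 5 * hi := by linarith
    have a2 : 3 / 2 * (c : ℝ) ≤ i - c := by linarith
    have a3 := mul_le_mul a1 a2 (by positivity) (by linarith)
    rw [div_le_div_iff₀ (mul_pos (mul_pos (by positivity) (by linarith)) (by linarith))
      (by positivity)]
    have a4 : 5 * (hi : ℝ) * c ≤ 2 / 3 * ((12 * i - 5 * hi) * (i - c)) := by nlinarith
    nlinarith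
  · have d0 : (c : ℝ) / 2 ≤ 5 * hi - 12 * c := by linarith
    set D : ℝ := 5 * hi - 12 * c with hD
    have D0 : 0 < D := by linarith
    refine (key _ (4 * D / (105 * c ^ 2) + 24 / (7455 * c)) (by positivity)
      fun i i1 i2 => ?_).trans ?_
    · unfold tB
      refine max_le (by positivity) ?_
      have i0 : (0 : ℝ) < i := by linarith
      have a2 : 3 / 2 * (c : ℝ) ≤ i - c := by linarith
      have a0 : (0 : ℝ) < i - c := by linarith
      have e : 12 / (7 * (q : ℝ) * i) - 1 / (((q : ℝ) + 1) * (i - c)) =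
          ((5 * i - 12 * c) / (7 * i * (i - c)) + 12 / (7 * q * i)) / (q + 1) := by
        field_simp; ring
      rw [e]
      refine div_le_div_of_nonneg_right (add_le_add ?_ ?_) (by positivity)
      · rw [div_le_div_iff₀ (by positivity) (by positivity)]
        have a3 := mul_le_mul (show 5 / 2 * (c : ℝ) ≤ i by linarith) a2 (by positivity) i0.le
        have a4 : (5 * i - 12 * c) * (105 * (c : ℝ) ^ 2) ≤ D * (105 * c ^ 2) :=
          mul_le_mul_of_nonneg_right (by linarith) (by positivity)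
        nlinarith
      · rw [div_le_div_iff₀ (by positivity) (by positivity)]
        nlinarith
    · have h0 : (0 : ℝ) < hi := by linarith
      have e : 1 / (c : ℝ) - 12 / (5 * hi) = D / (5 * c * hi) := by
        rw [hD]; field_simp
      have e2 : D / (15 * c ^ 2) ≤ D / (5 * c * hi) :=
        div_le_div_of_nonneg_left D0.le (by positivity) (by nlinarith)
      have e3 : 24 / (7455 * (c : ℝ)) ≤ D / (100 * c ^ 2) := by
        rw [div_le_div_iff₀ (by positivity) (by positivity)]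
        nlinarith
      have e4 : 0 ≤ D / c ^ 2 := by positivity
      have f1 : D / (15 * c ^ 2) = 1 / 15 * (D / c ^ 2) := by field_simp
      have f2 : D / (100 * c ^ 2) = 1 / 100 * (D / c ^ 2) := by field_simp
      have f3 : 4 * D / (105 * c ^ 2) = 4 / 105 * (D / c ^ 2) := by field_simp
      rw [e]
      linarith

variable {c : ℕ → ℕ}

lemma IsC.lo_ge (hc : IsC c) (p : ℕ) (hp : 30 ≤ p) : 5 * c (p + 1) ≤ 2 * II c p := by
  have := (hc.rb p hp).1
  unfold II; nlinarith

lemma IsC.c_lt_II (hc : IsC c) (p : ℕ) : c (p + 1) < II c p := by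
  have := hc.sl_pos p; unfold II; nlinarith

lemma IsC.own (hc : IsC c) (p : ℕ) (hp : 4 ≤ p) :
    Own (p + 1) (c (p + 1)) (II c p) (II c (p + 1)) := by
  have l1 := hc.II_lt p
  have l2 := hc.c_lt_II p
  have l3 := hc.ge (p + 1)
  by_cases h : p < 212
  · have o := own_ok p h hp
    simp only [Pool.Agent.H.MP_189914_nt.own, force_eq, Bool.and_eq_true, Nat.blt_eq,
      Nat.ble_eq] at o
    rw [← hc.tI_eq _ (by omega), ← hc.tI_eq _ (by omega), ← hc.tb_eq _ (by omega)] at o
    obtain ⟨⟨o1, o2⟩, o3⟩ := o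
    generalize II c p = lo at *
    generalize II c (p + 1) = hi at *
    generalize c (p + 1) = cq at *
    have e : Ioc lo hi = Ico (lo + 1) (lo + 1 + (hi - lo)) := by ext; simp; omega
    have s1 := sa_sound (p + 1) cq hi (hi - lo) (lo + 1) 0 o1 (by omega)
    have s2 := sb_sound (p + 1) cq (hi - lo) (by omega) (lo + 1) 0 (by omega)
    refine ⟨o1, ?_, ?_⟩ <;> rw [e] <;> refine le_of_mul_le_mul_right ?_ SS_pos
    · have : (sa (p + 1) cq hi (hi - lo) (lo + 1) 0 : ℝ) ≤ SS := by exact_mod_cast o2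
      simp only [Nat.cast_zero] at s1
      linarith
    · have e0 : (sb (p + 1) cq (hi - lo) (lo + 1) 0 : ℝ) + (12 * SS / (5 * hi) + 1 : ℕ) ≤
          (SS / cq : ℕ) := by exact_mod_cast o3
      have e1 := div_up (12 * SS) (5 * hi) (by omega)
      have e2 : ((SS / cq : ℕ) : ℝ) ≤ SS / cq := Nat.cast_div_le
      simp only [Nat.cast_zero] at s2
      have e3 : (1 / (cq : ℝ) - 12 / (5 * hi)) * SS =
          SS / cq - ((12 * SS : ℕ) : ℝ) / ((5 * hi : ℕ) : ℝ) := by push_cast; ring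
      linarith
  · have r := hc.rb p (by omega)
    refine own_an _ _ _ _ (by omega) (hc.lo_ge p (by omega)) (by rw [hc.II_succ]; omega) (by omega)
      ?_ (by omega)
    have s1 := hc.sl_succ_le p (by omega)
    have s2 : 7 * sl c (p + 1) ≤ p + 5 := by
      obtain ⟨u, u1, u2⟩ := hc.exW (p + 1) (by omega)
      rw [hc.sl_win _ u u1 u2]
      by_cases hu : u < 30
      · omega
      · have a1 := hc.lo_ge u (by omega)
        have a2 := hc.ratio_mono 31 (u + 1) (by omega)
        rw [hc.tb_eq 31 (by omega), show tb 31 = 133 by decide +kernel] at a2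
        omega
    have s3 : II c (p + 1) ≤ II c p + (p + 1 + 2 * sl c (p + 1)) := by
      rw [hc.II_succ]; unfold II; nlinarith
    omega

end Pool.Agent.H.MP_189914_nt
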