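import Mathlib
import Pool.Agent.H.MP_189914_nt.E

namespace Pool.Agent.H.MP_189914_nt
open Finset

noncomputable def JJ (c : ℕ → ℕ) (i : ℕ) : ℕ := sInf {p | i ≤ II c p}

def PP (a : ℕ → ℕ) (m i : ℕ) : ℕ := Nat.findGreatest (fun q => 12 * a q ≤ 5 * i) m

noncomputable def dd (c a : ℕ → ℕ) (m i : ℕ) : ℕ := JJ c i - 1 - PP a m i

noncomputable def nd (c a : ℕ → ℕ) (m i : ℕ) : ℝ :=
  12 * dd c a m i / (7 * ((PP a m i : ℝ) + 1) * JJ c i * i)

noncomputable def tau (i : ℕ) : ℝ := 12 / 5 * (1 / ((i : ℝ) - 1) - 1 / i)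

noncomputable def st (c a : ℕ → ℕ) (m i : ℕ) : ℝ := dd c a m i * tau i

noncomputable def gg (c a : ℕ → ℕ) (m i : ℕ) : ℝ :=
  if m ≤ i then min (loss c a i) (nd c a m i) else 0

noncomputable def cr2 (c a : ℕ → ℕ) (m q : ℕ) : ℝ :=
  if II c q < m then cred c a q else max 0 (12 / (5 * (II c q : ℝ)) - 1 / a q)

noncomputable def ff (c a : ℕ → ℕ) (q i : ℕ) : ℝ :=
  if 12 * a q ≤ 5 * II c q then 1 / (((q : ℝ) + 1) * (i - a q)) - 1 / (((q : ℝ) + 1) * (i - c q))
  else tB q (c q) i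

variable {c a : ℕ → ℕ} {k m : ℕ}

lemma IsC.le_IJ (hc : IsC c) (i : ℕ) : i ≤ II c (JJ c i) :=
  Nat.sInf_mem (s := {p | i ≤ II c p}) ⟨i, by have := hc.II_ge i; show i ≤ II c i; omega⟩

lemma JJ_le {i p : ℕ} (h : i ≤ II c p) : JJ c i ≤ p := Nat.sInf_le h

lemma IsC.lt_JJ (hc : IsC c) {i p : ℕ} : p < JJ c i ↔ II c p < i := by
  constructor
  · intro h
    by_contra hh
    have := JJ_le (not_lt.1 hh); omega
  · intro h
    by_contra hh
    have := hc.II_mono.monotone (not_lt.1 hh)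
    have := hc.le_IJ i
    omega

lemma IsC.c_J (hc : IsC c) (i : ℕ) : (c i : ℝ) = ((JJ c i : ℝ) + 1) * (i - c (JJ c i)) := by
  have := hc.winZ i (JJ c i) (fun r hr => (hc.lt_JJ.1 hr).le) (hc.le_IJ i)
  exact_mod_cast this

lemma IsA.PP_spec (ha : IsA a) (m i : ℕ) : 12 * a (PP a m i) ≤ 5 * i :=
  Nat.findGreatest_spec (P := fun q => 12 * a q ≤ 5 * i) (Nat.zero_le m) (by simp [ha.z])

lemma PP_le (m i : ℕ) : PP a m i ≤ m := Nat.findGreatest_le m

lemma PP_lt {m i q : ℕ} (h1 : PP a m i < q) (h2 : q ≤ m) : 5 * i < 12 * a q :=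
  not_le.1 (Nat.findGreatest_is_greatest (P := fun q => 12 * a q ≤ 5 * i) h1 h2)

lemma PP_mono {m i j : ℕ} (h : i ≤ j) : PP a m i ≤ PP a m j :=
  Nat.findGreatest_mono_left (fun q (hq : 12 * a q ≤ 5 * i) => show 12 * a q ≤ 5 * j by omega) m

lemma nd_nonneg (i : ℕ) : 0 ≤ nd c a m i := by unfold nd; positivity

lemma tau_eq {i : ℕ} (hi : 2 ≤ i) : tau i = 12 / (5 * i * (i - 1)) := by
  have : (2 : ℝ) ≤ i := by exact_mod_cast hi
  have : (i : ℝ) - 1 ≠ 0 := by linarith
  unfold tau; field_simp; ring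

lemma tau_nonneg {i : ℕ} (hi : 2 ≤ i) : 0 ≤ tau i := by
  have : (2 : ℝ) ≤ i := by exact_mod_cast hi
  have : 0 < (i : ℝ) - 1 := by linarith
  rw [tau_eq hi]; positivity

lemma st_nonneg {i : ℕ} (hi : 2 ≤ i) : 0 ≤ st c a m i :=
  mul_nonneg (by positivity) (tau_nonneg hi)

lemma gg_nonneg (i : ℕ) : 0 ≤ gg c a m i := by
  unfold gg; split_ifs
  · exact le_min (loss_nonneg _ _ _) (nd_nonneg _)
  · rfl

lemma gg_le_nd (i : ℕ) : gg c a m i ≤ nd c a m i := by
  unfold gg; split_ifs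
  · exact min_le_right _ _
  · exact nd_nonneg _

lemma Run.ge (h : Run c a k m) (q : ℕ) (hq : q < m) : c q ≤ a q := by
  by_cases h1 : q < k
  · exact (h.eq q h1).ge
  · exact (h.gt q (by omega) hq).le

lemma IsA.leR (ha : IsA a) (i j : ℕ) : ((j : ℝ) + 1) * (i - a j) ≤ a i := by
  have := ha.le i j
  by_cases h : a j ≤ i
  · have h2 : (((j + 1) * (i - a j) : ℕ) : ℝ) ≤ a i := by exact_mod_cast this
    push_cast [Nat.cast_sub h] at h2; exact h2
  · have h1 : (i : ℝ) ≤ a j := by exact_mod_cast (not_le.1 h).le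
    have : ((j : ℝ) + 1) * (i - a j) ≤ 0 :=
      mul_nonpos_of_nonneg_of_nonpos (by positivity) (by linarith)
    have : (0 : ℝ) ≤ a i := by positivity
    linarith

lemma IsA.inv_le (ha : IsA a) (m i : ℕ) (hi : 1 ≤ i) :
    1 / (a i : ℝ) ≤ 12 / (7 * ((PP a m i : ℝ) + 1) * i) := by
  have h1 := ha.leR i (PP a m i)
  have h2 : 12 * (a (PP a m i) : ℝ) ≤ 5 * i := by exact_mod_cast ha.PP_spec m i
  have h3 : (1 : ℝ) ≤ i := by exact_mod_cast hi
  have h4 : (i : ℝ) ≤ a i := by exact_mod_cast ha.ge i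
  have h5 : (0 : ℝ) ≤ PP a m i := by positivity
  rw [div_le_div_iff₀ (by linarith) (by positivity)]
  nlinarith

lemma Run.ff_nonneg (h : Run c a k m) (p i : ℕ) (h4 : 4 ≤ p) (hp : p + 1 < m) (hi : II c p < i) :
    0 ≤ ff c a (p + 1) i := by
  unfold ff
  split_ifs with h1
  · have o := (h.hc.own p h4).1
    have g : (c (p + 1) : ℝ) ≤ a (p + 1) := by exact_mod_cast h.ge _ hp
    have g2 : (a (p + 1) : ℝ) < i := by exact_mod_cast (show a (p + 1) < i by omega)
    rw [sub_nonneg]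
    exact one_div_le_one_div_of_le (mul_pos (by positivity) (by linarith))
      (mul_le_mul_of_nonneg_left (by linarith) (by positivity))
  · exact le_max_left _ _

lemma IsC.II4 (hc : IsC c) : II c 4 = 24 := by rw [hc.tI_eq 4 (by omega)]; decide +kernel

lemma Run.loss_le (h : Run c a k m) (hm : 25 ≤ m) (i : ℕ) (h1 : m ≤ i) (h2 : i ≤ II c (m - 1)) :
    loss c a i ≤ ff c a (JJ c i) i + gg c a m i := by
  have j1 : 4 < JJ c i := h.hc.lt_JJ.2 (by rw [h.hc.II4]; omega)
  have j2 := JJ_le h2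
  have j3 := h.hc.le_IJ i
  have j4 := h.hc.c_J i
  have i0 : (0 : ℝ) < i := by exact_mod_cast (show 0 < i by omega)
  obtain ⟨p, hp⟩ : ∃ p, JJ c i = p + 1 := ⟨JJ c i - 1, by omega⟩
  have j5 : II c p < i := h.hc.lt_JJ.1 (by omega)
  have f0 := h.ff_nonneg p i (by omega) (by omega) j5
  rw [← hp] at f0
  have key : loss c a i ≤ ff c a (JJ c i) i + nd c a m i := by
    have n0 := nd_nonneg (c := c) (a := a) (m := m) i
    refine max_le (by linarith) ?_
    rw [j4]
    unfold ff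
    split_ifs with h3
    · have o := (h.hc.own p (by omega)).1
      rw [← hp] at o
      have g2 : (a (JJ c i) : ℝ) < i := by exact_mod_cast (show a (JJ c i) < i by omega)
      have := one_div_le_one_div_of_le (mul_pos (by positivity) (by linarith)) (h.ha.leR i (JJ c i))
      linarith
    · have g1 : PP a m i < JJ c i := by
        by_contra hh
        have := h.ha.mono (not_lt.1 hh)
        have := h.ha.PP_spec m i
        omega
      have g2 := h.ha.inv_le m i (by omega)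
      have g3 : 12 / (7 * ((PP a m i : ℝ) + 1) * i) = 12 / (7 * (JJ c i : ℝ) * i) + nd c a m i := by
        have : (0 : ℝ) < JJ c i := by exact_mod_cast (show 0 < JJ c i by omega)
        unfold nd dd
        rw [Nat.sub_sub, Nat.cast_sub (by omega)]
        push_cast
        field_simp
        ring
      have g4 := le_max_right 0 (12 / (7 * (JJ c i : ℝ) * i) -
        1 / (((JJ c i : ℝ) + 1) * (i - c (JJ c i))))
      unfold tB
      linarith
  unfold gg
  rw [if_pos h1]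
  rcases le_total (loss c a i) (nd c a m i) with h3 | h3
  · rw [min_eq_left h3]; linarith
  · rw [min_eq_right h3]; exact key

lemma Run.own_le (h : Run c a k m) (p : ℕ) (h4 : 4 ≤ p) (hp : p + 1 < m) :
    ∑ i ∈ Ioc (II c p) (II c (p + 1)), ff c a (p + 1) i ≤
      cred c a (p + 1) - max 0 (12 / (5 * (II c (p + 1) : ℝ)) - 1 / a (p + 1)) := by
  obtain ⟨o1, o2, o3⟩ := h.hc.own p h4
  have g : (c (p + 1) : ℝ) ≤ a (p + 1) := by exact_mod_cast h.ge _ hp
  have c0 : (0 : ℝ) < c (p + 1) := by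
    exact_mod_cast (show 0 < c (p + 1) by have := h.hc.ge (p + 1); omega)
  have hi0 : (0 : ℝ) < II c (p + 1) := by
    exact_mod_cast (show 0 < II c (p + 1) by have := h.hc.II_ge (p + 1); omega)
  unfold ff cred
  split_ifs with h1
  · have r1 : 12 * (a (p + 1) : ℝ) ≤ 5 * II c (p + 1) := by exact_mod_cast h1
    rw [max_eq_left (by rw [sub_nonpos, div_le_div_iff₀ (by positivity) (by linarith)]; linarith),
      sub_zero]
    have d0 : 0 ≤ 1 / (c (p + 1) : ℝ) - 1 / a (p + 1) :=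
      sub_nonneg.2 (one_div_le_one_div_of_le c0 g)
    refine le_trans (sum_le_sum fun i hi => ?_) ((mul_sum _ _ _).ge.trans
      ((mul_le_mul_of_nonneg_left o2 d0).trans (mul_one _).le))
    have i1 : 5 * (II c (p + 1) : ℝ) < 12 * i := by
      exact_mod_cast (show 5 * II c (p + 1) < 12 * i by have := (mem_Ioc.1 hi).1; omega)
    unfold tA
    generalize (II c (p + 1) : ℝ) = H at *
    generalize (c (p + 1) : ℝ) = C at *
    generalize (a (p + 1) : ℝ) = A at *
    generalize (i : ℝ) = x at *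
    have q0 : (0 : ℝ) < ((p + 1 : ℕ) : ℝ) + 1 := by positivity
    generalize ((p + 1 : ℕ) : ℝ) + 1 = Q at *
    have a1 : 0 < x - A := by linarith
    have a2 : 0 < x - C := by linarith
    have a3 : 0 < 12 * x - 5 * H := by linarith
    have a4 : 0 < A := by linarith
    have e1 : 1 / (Q * (x - A)) - 1 / (Q * (x - C)) = (A - C) / (Q * (x - C)) * (1 / (x - A)) := by
      field_simp; ring
    have e2 : (1 / C - 1 / A) * (5 * H * C / (Q * (12 * x - 5 * H) * (x - C))) =
        (A - C) / (Q * (x - C)) * (5 * H / (A * (12 * x - 5 * H))) := by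
      field_simp
    rw [e1, e2]
    refine mul_le_mul_of_nonneg_left ?_ (div_nonneg (by linarith) (by positivity))
    rw [div_le_div_iff₀ a1 (by positivity)]
    nlinarith
  · have r1 : 5 * (II c (p + 1) : ℝ) ≤ 12 * a (p + 1) := by exact_mod_cast (not_le.1 h1).le
    rw [max_eq_right (by rw [sub_nonneg, div_le_div_iff₀ (by linarith) (by positivity)]; linarith)]
    linarith

lemma Run.acc0 (h : Run c a k m) (hm : 25 ≤ m)
    (H : ∑ i ∈ Icc m (II c (m - 1)), gg c a m i ≤ ∑ q ∈ Ico 1 m, cr2 c a m q) : Goal c a m := by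
  have e1 : ∑ i ∈ Icc m (II c (m - 1)), loss c a i ≤
      ∑ i ∈ Icc m (II c (m - 1)), (ff c a (JJ c i) i + gg c a m i) :=
    sum_le_sum fun i hi => h.loss_le hm i (mem_Icc.1 hi).1 (mem_Icc.1 hi).2
  have e2 : ∑ i ∈ Icc m (II c (m - 1)), ff c a (JJ c i) i ≤
      ∑ q ∈ Ico 1 m, (cred c a q - cr2 c a m q) := by
    rw [← sum_fiberwise_of_maps_to (g := JJ c) (t := Ico 1 m) fun i hi => by
      have j1 : 4 < JJ c i := h.hc.lt_JJ.2 (by rw [h.hc.II4]; have := (mem_Icc.1 hi).1; omega)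
      have j2 := JJ_le (mem_Icc.1 hi).2
      rw [mem_Ico]; omega]
    refine sum_le_sum fun q hq => ?_
    rw [mem_Ico] at hq
    unfold cr2
    split_ifs with h1
    · rw [sub_self]
      refine le_of_eq (sum_eq_zero fun i hi => ?_)
      rw [mem_filter, mem_Icc] at hi
      have := h.hc.le_IJ i
      rw [hi.2] at this
      omega
    · have q5 : 4 < q := h.hc.II_mono.lt_iff_lt.1 (by rw [h.hc.II4]; omega)
      obtain ⟨p, rfl⟩ : ∃ p, q = p + 1 := ⟨q - 1, by omega⟩
      refine le_trans ?_ (h.own_le p (by omega) hq.2)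
      rw [sum_congr rfl fun i hi => by rw [(mem_filter.1 hi).2]]
      refine sum_le_sum_of_subset_of_nonneg (fun i hi => ?_) fun i hi _ =>
        h.ff_nonneg p i (by omega) hq.2 (mem_Ioc.1 hi).1
      have e := (mem_filter.1 hi).2
      have := h.hc.le_IJ i
      rw [e] at this
      exact mem_Ioc.2 ⟨h.hc.lt_JJ.1 (by omega), this⟩
  rw [sum_add_distrib] at e1
  rw [sum_sub_distrib] at e2
  unfold Goal
  unfold cred at e2
  linarith

lemma IsC.kapR (hc : IsC c) (q x : ℕ) (hq : 1 ≤ q) (hx : II c q ≤ x) :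
    12 / (5 * (x : ℝ)) ≤ 1 / c q := by
  have h1 := hc.kap q
  have h2 := hc.ge q
  have h3 : 12 * (c q : ℝ) ≤ 5 * x := by exact_mod_cast (show 12 * c q ≤ 5 * x by omega)
  have h4 : (0 : ℝ) < c q := by exact_mod_cast (show 0 < c q by omega)
  rw [div_le_div_iff₀ (by linarith) h4]; linarith

lemma Run.cr2_ge (h : Run c a k m) (q x : ℕ) (h1 : 1 ≤ q) (h2 : q < m) (h3 : II c q ≤ x) :
    max 0 (12 / (5 * (x : ℝ)) - 1 / a q) ≤ cr2 c a m q := by
  unfold cr2 cred
  have c0 : 0 < c q := by have := h.hc.ge q; omega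
  split_ifs with h4
  · have := inv_le_inv_nat c0 (h.ge q h2)
    have := h.hc.kapR q x h1 h3
    exact max_le (by linarith) (by linarith)
  · refine max_le_max le_rfl (sub_le_sub_right ?_ _)
    have : (0 : ℝ) < II c q := by
      exact_mod_cast (show 0 < II c q by have := h.hc.II_ge q; omega)
    have : (II c q : ℝ) ≤ x := by exact_mod_cast h3
    exact div_le_div_of_nonneg_left (by norm_num) (by positivity) (by linarith)

lemma tau_sum (x y : ℕ) (h : x ≤ y) :
    ∑ i ∈ Ioc x y, tau i = 12 / (5 * (x : ℝ)) - 12 / (5 * y) := by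
  induction y, h using Nat.le_induction with
  | base => simp
  | succ y hy ih =>
    rw [sum_Ioc_succ_top hy, ih]; unfold tau; push_cast
    rw [add_sub_cancel_right, ← div_div, ← div_div, ← div_div]; ring

lemma tele (x A E : ℕ) (hx : 1 ≤ x) :
    ∑ i ∈ Ioc x E with 5 * i < 12 * A, tau i ≤ max 0 (12 / (5 * (x : ℝ)) - 1 / A) := by
  rcases le_total E x with h | h
  · rw [Ioc_eq_empty (by omega)]; simp
  induction E, h using Nat.le_induction with
  | base => simp
  | succ y hy ih =>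
    by_cases h1 : 5 * (y + 1) < 12 * A
    · refine le_max_of_le_right ((sum_le_sum_of_subset_of_nonneg (filter_subset _ _)
        fun i hi _ => tau_nonneg (by have := (mem_Ioc.1 hi).1; omega)).trans ?_)
      rw [tau_sum x (y + 1) (by omega)]
      have r : 5 * ((y + 1 : ℕ) : ℝ) ≤ 12 * A := by exact_mod_cast h1.le
      have r0 : (0 : ℝ) < ((y + 1 : ℕ) : ℝ) := by positivity
      have : 1 / (A : ℝ) ≤ 12 / (5 * ((y + 1 : ℕ) : ℝ)) := by
        rw [div_le_div_iff₀ (by linarith) (by positivity)]; linarith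
      linarith
    · refine le_trans (le_of_eq (sum_congr ?_ fun _ _ => rfl)) ih
      ext i
      simp only [mem_filter, mem_Ioc]
      omega

lemma Run.strip (h : Run c a k m) (x0 Q p' : ℕ) (h0 : 1 ≤ x0) (h1 : x0 < m) (h2 : II c Q ≤ x0)
    (h3 : PP a m x0 < p') :
    ∑ i ∈ Ioc x0 (II c (m - 1)), st c a m i +
      ∑ q ∈ Ico p' (Q + 1), (1 / (c q : ℝ) - 12 / (5 * x0)) ≤ ∑ q ∈ Ico 1 m, cr2 c a m q := by
  set E := II c (m - 1)
  have e1 : ∑ i ∈ Ioc x0 E, st c a m i ≤ ∑ i ∈ Ioc x0 E, ∑ q ∈ Ico 1 m,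
      if II c q < i ∧ 5 * i < 12 * a q then tau i else 0 := by
    refine sum_le_sum fun i hi => ?_
    rw [mem_Ioc] at hi
    rw [← sum_filter, sum_const, nsmul_eq_mul]
    refine mul_le_mul_of_nonneg_right ?_ (tau_nonneg (by omega))
    have j2 := JJ_le hi.2
    have : Ioo (PP a m i) (JJ c i) ⊆ (Ico 1 m).filter fun q => II c q < i ∧ 5 * i < 12 * a q := by
      intro q hq
      rw [mem_Ioo] at hq
      rw [mem_filter, mem_Ico]
      exact ⟨by omega, h.hc.lt_JJ.1 hq.2, PP_lt hq.1 (by omega)⟩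
    have := card_le_card this
    rw [Nat.card_Ioo] at this
    exact_mod_cast (show dd c a m i ≤ _ by unfold dd; omega)
  rw [sum_comm] at e1
  have e2 : ∀ q ∈ Ico 1 m, (∑ i ∈ Ioc x0 E, if II c q < i ∧ 5 * i < 12 * a q then tau i else 0) ≤
      max 0 (12 / (5 * ((max x0 (II c q) : ℕ) : ℝ)) - 1 / a q) := by
    intro q _
    refine le_trans (le_of_eq ?_) (tele (max x0 (II c q)) (a q) E (by omega))
    rw [← sum_filter]
    refine sum_congr ?_ fun _ _ => rfl
    ext i
    simp only [mem_filter, mem_Ioc]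
    omega
  have hQ := h.hc.II_ge Q
  have e3 : ∑ q ∈ Ico p' (Q + 1), (1 / (c q : ℝ) - 12 / (5 * x0)) =
      ∑ q ∈ Ico 1 m, if p' ≤ q ∧ q ≤ Q then 1 / (c q : ℝ) - 12 / (5 * x0) else 0 := by
    rw [← sum_filter]
    refine sum_congr ?_ fun _ _ => rfl
    ext i
    simp only [mem_filter, mem_Ico]
    omega
  rw [e3]
  refine (add_le_add (e1.trans (sum_le_sum e2)) le_rfl).trans ?_
  rw [← sum_add_distrib]
  refine sum_le_sum fun q hq => ?_
  rw [mem_Ico] at hq
  split_ifs with h4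
  · have g1 := h.hc.II_mono.monotone h4.2
    have g2 : 5 * (x0 : ℝ) ≤ 12 * a q := by exact_mod_cast (PP_lt (h3.trans_le h4.1) hq.2.le).le
    have g3 : (0 : ℝ) < x0 := by exact_mod_cast h0
    rw [max_eq_left (show II c q ≤ x0 by omega), cr2, if_pos (by omega), cred, max_eq_right (by
      rw [sub_nonneg, div_le_div_iff₀ (by linarith) (by positivity)]; linarith)]
    linarith
  · rw [add_zero]
    exact h.cr2_ge q _ hq.1 hq.2 (le_max_right _ _)

end Pool.Agent.H.MP_189914_nt
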