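import Mathlib
import Pool.Agent.H.MP_189914_nt.F
import Pool.Agent.H.MP_189914_nt.G1

namespace Pool.Agent.H.MP_189914_nt
open Finset

variable {c a : ℕ → ℕ} {k m : ℕ}

def Good (c : ℕ → ℕ) (b : Bd) : Prop :=
  b.x ≤ II c b.j ∧ II c (b.l - 1) ≤ b.x ∧ 1 ≤ b.l ∧ b.cx = c b.x

lemma cc_sound (hc : IsC c) (n h : ℕ) (hh : h < 6590) (h0 : 0 < cc n h) : cc n h = c n := by
  unfold cc at *
  rw [← hc.tI_eq h (by omega), ← hc.tI_eq (h + 1) (by omega), ← hc.tI_eq (h + 2) (by omega),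
    ← hc.tb_eq (h + 1) (by omega), ← hc.tb_eq (h + 2) (by omega)] at *
  by_cases h1 : n < 6600
  · rw [Nat.blt_eq.mpr h1, hc.tb_eq n h1]; rfl
  rw [Bool.eq_false_iff.2 (mt Nat.blt_eq.mp h1), cond_false] at h0 ⊢
  cases h2 : (Nat.ble (II c h) n && Nat.ble n (II c (h + 1)))
  · rw [h2, cond_false] at h0
    cases h3 : (Nat.ble (II c (h + 1)) n && Nat.ble n (II c (h + 2)))
    · rw [h3] at h0; simp at h0
    · simp only [Bool.and_eq_true, Nat.ble_eq] at h3
      exact (hc.win n (h + 1) h3.1 h3.2).symm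
  · simp only [Bool.and_eq_true, Nat.ble_eq] at h2
    exact (hc.win n h h2.1 h2.2).symm

lemma bchk_sound (hc : IsC c) (b : Bd) (h : bchk b = true) : Good c b := by
  simp only [bchk, force_eq, Bool.and_eq_true, Bool.or_eq_true, Nat.blt_eq, Nat.ble_eq,
    Nat.beq_eq] at h
  obtain ⟨⟨⟨⟨⟨⟨⟨⟨h1, h2⟩, h3⟩, h4⟩, h5⟩, h6⟩, h7⟩, h8⟩, h9⟩ := h
  rw [cc_sound hc _ _ h1 h3, cc_sound hc _ _ h1 h4] at h6
  rw [cc_sound hc _ _ h1 h5, cc_sound hc _ _ h1 h4] at h7 h8
  rw [cc_sound hc _ _ h1 h4] at h9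
  obtain ⟨x, j, l, cx, hh⟩ := b
  simp only at *
  obtain ⟨p, rfl⟩ : ∃ p, j = p + 1 := ⟨j - 1, by omega⟩
  change II c p ≤ x at h6
  change x ≤ II c (p + 1) at h7
  change _ ∨ _ ∧ x = II c (p + 1) at h8
  refine ⟨h7, ?_, by simp only; omega, h9.trans (hc.win x p h6 h7).symm⟩
  rcases h8 with rfl | ⟨rfl, h8⟩
  · exact h6
  · exact h8.ge

def Inv (z : ℕ) (T : ℝ) : List (ℕ × ℕ) → Prop
  | [] => True
  | (lo, v) :: t => if lo ≤ z then T * SS ≤ v else Inv z T t

lemma Inv_zero (z : ℕ) (l : List (ℕ × ℕ)) : Inv z 0 l := by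
  induction l with
  | nil => trivial
  | cons e t ih => unfold Inv; split_ifs; exacts [by simp, ih]

lemma row_sound (jl jh cp stv A B1 B2 y px py : ℕ) (Bs Ty : ℝ) (hp : px ≤ py)
    (hH : ∀ lo ≤ px, Bs * SS ≤ fH jl jh cp A B2 y lo) (l : List (ℕ × ℕ)) : ∀ hi W U : ℕ,
    ((∀ lo ≤ px, (Bs + Ty) * SS ≤ fN jh cp A B1 lo + W ∧
      (Bs + Ty) * SS ≤ fH jl jh cp A B2 y lo + U) ∨
      ((∀ lo ≤ px, ∀ hi, py < hi ∨ jl ≤ hi →
        Bs * SS ≤ fN jh cp A B1 lo - ((jl - hi) * stv : ℕ)) ∧ Inv py Ty l ∧ (py < hi ∨ jl ≤ hi))) →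
    Inv px (Bs + Ty) (row jl jh cp stv A B1 B2 y l hi W U) := by
  induction l with
  | nil => intro _ _ _ _; trivial
  | cons e t ih =>
    obtain ⟨lo, v⟩ := e
    intro hi W U h
    simp only [row, force_eq, mx_eq, mn_eq, Inv] at h ⊢
    generalize hs : (jl - hi) * stv = s
    have w1 : (W : ℝ) ≤ (max W (v - s) : ℕ) := by exact_mod_cast le_max_left _ _
    have w2 : (v : ℝ) - s ≤ (max W (v - s) : ℕ) :=
      (sub_lo v s).trans (by exact_mod_cast le_max_right _ _)
    have w3 : (U : ℝ) ≤ (max U v : ℕ) := by exact_mod_cast le_max_left _ _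
    have w4 : (v : ℝ) ≤ (max U v : ℕ) := by exact_mod_cast le_max_right _ _
    rcases h with h | ⟨h1, h2, h3⟩
    · split_ifs with g
      · rw [Nat.cast_max, Nat.cast_min, Nat.cast_min]
        refine le_max_of_le_right (le_min ?_ ?_) <;> push_cast
        exacts [(h lo g).1, (h lo g).2]
      · exact ih _ _ _ (Or.inl fun lo' g' => ⟨by linarith [(h lo' g').1], by linarith [(h lo' g').2]⟩)
    · split_ifs at h2 with g2
      · split_ifs with g
        · rw [Nat.cast_max, Nat.cast_min, Nat.cast_min]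
          have := h1 lo g hi h3
          have := hH lo g
          have := sub_lo (fN jh cp A B1 lo + v) s
          rw [hs] at *
          refine le_max_of_le_left (le_min ?_ ?_) <;> push_cast at * <;> linarith
        · refine ih _ _ _ (Or.inl fun lo' g' => ?_)
          have := h1 lo' g' hi h3
          have := hH lo' g'
          rw [hs] at *
          exact ⟨by linarith, by linarith⟩
      · rw [if_neg (by omega)]
        exact ih _ _ _ (Or.inr ⟨h1, h2, Or.inl (by omega)⟩)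

lemma cdiv_ge (u v : ℕ) (hv : 0 < v) : (u : ℝ) / v ≤ cdiv u v := by
  rw [cdiv, force_eq, div_le_iff₀ (by exact_mod_cast hv)]
  have h := Nat.lt_div_mul_add hv (a := u + v - 1)
  have : u ≤ (u + v - 1) / v * v := by omega
  exact_mod_cast this

lemma sum_bound (f : ℕ → ℝ) (x y E : ℕ) (t : ℝ) (t0 : 0 ≤ t)
    (h : ∀ i, x < i → i ≤ y → i ≤ E → f i ≤ t) :
    ∑ i ∈ Ioc x (min y E), f i ≤ ((y - x : ℕ) : ℝ) * t := by
  refine (sum_le_card_nsmul _ _ t fun i hi => ?_).trans ?_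
  · rw [mem_Ioc] at hi; exact h i hi.1 (by omega) (by omega)
  · rw [Nat.card_Ioc, nsmul_eq_mul]
    exact mul_le_mul_of_nonneg_right (by exact_mod_cast (show _ ≤ y - x by omega)) t0

lemma nd_le (i x jh lo : ℕ) (h1 : x < i) (h2 : i ≤ II c jh) (h3 : lo ≤ PP a m i)
    (h4 : 1 ≤ jh) : nd c a m i ≤ 12 * ((jh - 1 - lo : ℕ) : ℝ) / (7 * (lo + 1) * jh * (x + 1)) := by
  have j2 := JJ_le h2
  unfold nd dd
  generalize JJ c i = J at *
  generalize PP a m i = P at *
  by_cases h5 : J - 1 - P = 0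
  · rw [h5]; simp only [Nat.cast_zero, mul_zero, zero_div]; positivity
  have r0 : (0 : ℝ) < J := by exact_mod_cast (show 0 < J by omega)
  have r1 : (0 : ℝ) < i := by exact_mod_cast (show 0 < i by omega)
  have r2 : (0 : ℝ) < jh := by exact_mod_cast h4
  rw [div_le_div_iff₀ (by positivity) (by positivity)]
  have e1 : (J - 1 - P) * jh ≤ (jh - 1 - lo) * J := by
    obtain ⟨d, rfl⟩ := Nat.exists_eq_add_of_le j2
    obtain ⟨e, rfl⟩ : ∃ e, J = e + 1 + P := ⟨J - 1 - P, by omega⟩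
    obtain ⟨g, rfl⟩ := Nat.exists_eq_add_of_le h3
    rw [show e + 1 + (lo + g) - 1 - (lo + g) = e by omega,
      show e + 1 + (lo + g) + d - 1 - lo = e + g + d by omega]
    nlinarith [Nat.zero_le (d * lo), Nat.zero_le (g * lo), Nat.zero_le (g * e), Nat.zero_le (g * g),
      Nat.zero_le (g * d)]
  have e2 : (lo + 1) * (x + 1) ≤ (P + 1) * i := Nat.mul_le_mul (by omega) h1
  have e3 := Nat.mul_le_mul e1 e2
  have e4 : (((J - 1 - P) * jh * ((lo + 1) * (x + 1)) : ℕ) : ℝ) ≤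
    ((jh - 1 - lo) * J * ((P + 1) * i) : ℕ) := by exact_mod_cast e3
  push_cast at e4
  nlinarith

lemma hh_le (hc : IsC c) (i x y jl jh lo : ℕ) (h0 : 1 ≤ x) (h1 : x < i) (h1' : i ≤ y)
    (h2 : i ≤ II c jh) (h3 : lo ≤ PP a m i) (h4 : 1 ≤ jl) (h5 : II c (jl - 1) ≤ x) :
    nd c a m i - st c a m i ≤ 12 * ((jh - 1 - lo : ℕ) : ℝ) * (5 * y - 7 * (lo + 1) * jl : ℕ) /
      ((lo + 1) * (35 * jl * y * (x + 1))) := by
  have j2 := JJ_le h2
  have j3 : jl - 1 < JJ c i := hc.lt_JJ.2 (by omega)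
  have d1 : (dd c a m i : ℝ) ≤ (jh - 1 - lo : ℕ) := by
    exact_mod_cast (show dd c a m i ≤ _ by unfold dd; omega)
  have d0 : (0 : ℝ) ≤ dd c a m i := by positivity
  have s1 := sub_lo (5 * y) (7 * (lo + 1) * jl)
  have s0 : (0 : ℝ) ≤ (5 * y - 7 * (lo + 1) * jl : ℕ) := by positivity
  unfold nd st
  rw [tau_eq (by omega)]
  have r0 : (jl : ℝ) ≤ JJ c i := by exact_mod_cast (show jl ≤ JJ c i by omega)
  have r1 : (x : ℝ) + 1 ≤ i := by exact_mod_cast h1
  have r2 : (1 : ℝ) ≤ jl := by exact_mod_cast h4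
  have r3 : (lo : ℝ) ≤ PP a m i := by exact_mod_cast h3
  have r4 : (1 : ℝ) ≤ x := by exact_mod_cast h0
  have r5 : (i : ℝ) ≤ y := by exact_mod_cast h1'
  have r6 : (0 : ℝ) ≤ lo := by positivity
  push_cast at s1
  generalize ((5 * y - 7 * (lo + 1) * jl : ℕ) : ℝ) = H at *
  generalize ((jh - 1 - lo : ℕ) : ℝ) = D at *
  generalize (dd c a m i : ℝ) = d at *
  generalize (JJ c i : ℝ) = J at *
  generalize (PP a m i : ℝ) = P at *
  generalize (i : ℝ) = u at *
  have u0 : 0 < u := by linarith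
  have y0 : (0 : ℝ) < y := by linarith
  have a1 : 12 * d / (7 * (P + 1) * J * u) ≤ d / u * (12 / (7 * ((lo + 1) * jl))) := by
    rw [div_mul_div_comm, mul_comm d 12]
    refine div_le_div_of_nonneg_left (by positivity) (by positivity) ?_
    have := mul_le_mul (show (lo : ℝ) + 1 ≤ P + 1 by linarith) r0 (by positivity) (by linarith)
    nlinarith
  have a2 : d / u * (12 / (5 * y)) ≤ d * (12 / (5 * u * (u - 1))) := by
    rw [div_mul_div_comm, mul_div_assoc]
    refine mul_le_mul_of_nonneg_left (div_le_div_of_nonneg_left (by norm_num)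
      (mul_pos (by positivity) (by linarith)) (by nlinarith)) d0
  have a3 : 12 / (7 * (((lo : ℝ) + 1) * jl)) - 12 / (5 * y) ≤ 12 * H / ((lo + 1) * (35 * jl * y)) := by
    have : 12 / (7 * (((lo : ℝ) + 1) * jl)) - 12 / (5 * y) =
        12 * (5 * y - 7 * (lo + 1) * jl) / ((lo + 1) * (35 * jl * y)) := by field_simp; ring
    rw [this]
    exact div_le_div_of_nonneg_right (by linarith) (by positivity)
  have a4 : d / u ≤ D / (x + 1) := div_le_div₀ (by linarith) d1 (by positivity) r1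
  have a5 := mul_le_mul_of_nonneg_left a3 (show 0 ≤ d / u by positivity)
  have a6 := mul_le_mul_of_nonneg_right a4
    (show 0 ≤ 12 * H / (((lo : ℝ) + 1) * (35 * jl * y)) by positivity)
  have a7 : D / (x + 1) * (12 * H / (((lo : ℝ) + 1) * (35 * jl * y))) =
      12 * D * H / ((lo + 1) * (35 * jl * y * (x + 1))) := by field_simp
  linarith

lemma Run.cap (h : Run c a k m) (x0 m2 x y i : ℕ) (h1 : x0 < m) (h2 : m ≤ m2) (h3 : x < i)
    (h4 : i ≤ y) : gg c a m i * SS ≤ (cond (Nat.ble (c m2) x) (mn (SS / (c x0 + 1) + 1)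
      (SS / ((x0 + 2) * (x + 1 - c m2)) + 1)) (SS / (c x0 + 1) + 1) - SS / c y : ℕ) := by
  unfold gg
  split_ifs with h5
  swap
  · rw [zero_mul]; positivity
  have c0 : 0 < c i := by have := h.hc.ge i; omega
  have c1 : c i ≤ c y := h.hc.mono.monotone h4
  have g1 := _root_.Pool.Agent.H.MP_189914_nt.loss_le i (c x0 + 1) (c y) (by omega)
    (le_trans (by have := h.hc.mono.monotone (show x0 ≤ m - 1 by omega); omega) (h.gtM i h5)) c0 c1
  refine (mul_le_mul_of_nonneg_right (min_le_left _ _) SS_pos.le).trans ?_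
  cases b : Nat.ble (c m2) x
  · exact g1
  · have b1 := Nat.le_of_ble_eq_true b
    have b2 := h.hc.mono.monotone h2
    have b3 := h.le
    have g2 := _root_.Pool.Agent.H.MP_189914_nt.loss_le i ((x0 + 2) * (x + 1 - c m2)) (c y) (Nat.mul_pos (by omega) (by omega))
      ((Nat.mul_le_mul (by omega) (by omega)).trans (h.ha.le i m)) c0 c1
    rw [cond_true, mn_eq]
    rcases le_total (SS / (c x0 + 1) + 1) (SS / ((x0 + 2) * (x + 1 - c m2)) + 1) with g | g
    · rwa [min_eq_left g]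
    · rwa [min_eq_right g]

noncomputable def TT (c a : ℕ → ℕ) (m x : ℕ) : ℝ :=
  ∑ i ∈ Ioc x (II c (m - 1)), (gg c a m i - st c a m i)

lemma Run.blk_sound (h : Run c a k m) (x0 m2 : ℕ) (b b' : Bd) (V : List (ℕ × ℕ)) (h1 : x0 < m)
    (h2 : m ≤ m2) (g : Good c b) (g' : Good c b') (h0 : 1 ≤ b.x) (hx : b.x < b'.x)
    (hV : Inv (PP a m b'.x) (TT c a m b'.x) V) :
    Inv (PP a m b.x) (TT c a m b.x) (blk x0 (c x0) (c m2) b b' V) := by
  obtain ⟨x, j, jl, cx, _⟩ := b
  obtain ⟨y, jh, _, cy, _⟩ := b'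
  obtain ⟨-, g2, g3, -⟩ := g
  obtain ⟨g1, -, -, g4⟩ := g'
  simp only [blk, force_eq] at *
  subst g4
  have jh1 : 1 ≤ jh := by
    have := h.hc.II_mono.lt_iff_lt.1 (show II c (jl - 1) < II c jh by omega)
    omega
  have S0 := SS_pos
  have e : TT c a m x = ∑ i ∈ Ioc x (min y (II c (m - 1))), (gg c a m i - st c a m i) +
      TT c a m y := by
    unfold TT
    rcases le_total y (II c (m - 1)) with h3 | h3
    · rw [min_eq_left h3, sum_Ioc_consecutive _ hx.le h3]
    · rw [min_eq_right h3, Ioc_eq_empty (a := y) (by omega), sum_empty, add_zero]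
  have s0 : 0 ≤ ∑ i ∈ Ioc x (min y (II c (m - 1))), st c a m i :=
    sum_nonneg fun i hi => st_nonneg (by have := (mem_Ioc.1 hi).1; omega)
  have k1 : (∑ i ∈ Ioc x (min y (II c (m - 1))), gg c a m i) * SS ≤
      cpv x0 (c x0) (c m2) x y (c y) := by
    rw [sum_mul, cpv, Nat.cast_mul, mul_comm]
    exact sum_bound _ _ _ _ _ (by positivity) fun i i1 i2 _ => h.cap x0 m2 x y i h1 h2 i1 i2
  have k2 : ∀ lo ≤ PP a m x, (∑ i ∈ Ioc x (min y (II c (m - 1))), gg c a m i) * SS ≤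
      fN jh (cpv x0 (c x0) (c m2) x y (c y)) (12 * SS * (y - x)) (7 * jh * (x + 1)) lo := by
    intro lo hlo
    rw [fN, mn_eq, Nat.cast_min]
    refine le_min k1 (le_trans ?_ (cdiv_ge _ _ (by positivity)))
    have := sum_bound (gg c a m) x y (II c (m - 1)) _ (by positivity) fun i i1 i2 _ =>
      (gg_le_nd i).trans (nd_le i x jh lo i1 (i2.trans g1) (hlo.trans (PP_mono i1.le)) jh1)
    refine (mul_le_mul_of_nonneg_right this S0.le).trans (le_of_eq ?_)
    push_cast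
    have : (0 : ℝ) < jh := by exact_mod_cast jh1
    field_simp
  have k3 : ∀ lo ≤ PP a m x,
      (∑ i ∈ Ioc x (min y (II c (m - 1))), (gg c a m i - st c a m i)) * SS ≤
      fH jl jh (cpv x0 (c x0) (c m2) x y (c y)) (12 * SS * (y - x)) (35 * jl * y * (x + 1)) y lo := by
    intro lo hlo
    rw [fH, mn_eq, Nat.cast_min]
    refine le_min (by rw [sum_sub_distrib]; nlinarith)
      (le_trans ?_ (cdiv_ge _ _ (by have : 0 < y := by omega
                                    positivity)))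
    have := sum_bound (fun i => gg c a m i - st c a m i) x y (II c (m - 1)) _ (by positivity)
      fun i i1 i2 _ => (sub_le_sub_right (gg_le_nd i) _).trans
        (hh_le h.hc i x y jl jh lo h0 i1 i2 (i2.trans g1) (hlo.trans (PP_mono i1.le)) g3 g2)
    refine (mul_le_mul_of_nonneg_right this S0.le).trans (le_of_eq ?_)
    push_cast
    ring
  rw [e]
  refine row_sound _ _ _ _ _ _ _ _ _ _ _ _ (PP_mono hx.le) k3 V _ _ _ ?_
  rcases le_total y (II c (m - 1)) with h3 | h3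
  · refine Or.inr ⟨fun lo hlo hi hhi => ?_, hV, Or.inr le_rfl⟩
    have k4 : (((jl - hi) * (12 * SS * (y - x) / (5 * x * y)) : ℕ) : ℝ) ≤
        (∑ i ∈ Ioc x (min y (II c (m - 1))), st c a m i) * SS := by
      rw [min_eq_left h3]
      have t1 : ∑ i ∈ Ioc x y, ((jl - hi : ℕ) : ℝ) * tau i ≤ ∑ i ∈ Ioc x y, st c a m i := by
        refine sum_le_sum fun i hi' => ?_
        rw [mem_Ioc] at hi'
        refine mul_le_mul_of_nonneg_right ?_ (tau_nonneg (by omega))
        have j3 : jl - 1 < JJ c i := h.hc.lt_JJ.2 (by omega)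
        have := PP_mono (a := a) (m := m) hi'.2
        exact_mod_cast (show jl - hi ≤ dd c a m i by unfold dd; omega)
      rw [← mul_sum, tau_sum x y hx.le] at t1
      have t2 : ((12 * SS * (y - x) / (5 * x * y) : ℕ) : ℝ) ≤
          (12 * SS * (y - x) : ℕ) / (5 * x * y : ℕ) := Nat.cast_div_le
      have t3 : ((12 * SS * (y - x) : ℕ) : ℝ) / (5 * x * y : ℕ) =
          (12 / (5 * (x : ℝ)) - 12 / (5 * y)) * SS := by
        have : (0 : ℝ) < x := by exact_mod_cast h0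
        have : (0 : ℝ) < y := by exact_mod_cast (show 0 < y by omega)
        push_cast [Nat.cast_sub hx.le]
        field_simp
      rw [Nat.cast_mul]
      refine (mul_le_mul_of_nonneg_left (t2.trans t3.le) (by positivity)).trans ?_
      rw [← mul_assoc]
      exact mul_le_mul_of_nonneg_right t1 S0.le
    have := k2 lo hlo
    rw [sum_sub_distrib]
    linarith
  · refine Or.inl fun lo hlo => ?_
    have t0 : TT c a m y = 0 := by unfold TT; rw [Ioc_eq_empty (by omega), sum_empty]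
    have := k2 lo hlo
    have := k3 lo hlo
    rw [t0, add_zero, Nat.cast_zero, add_zero, add_zero]
    refine ⟨?_, this⟩
    rw [sum_sub_distrib]; nlinarith

lemma Run.go_sound (h : Run c a k m) (x0 m2 : ℕ) (V0 : List (ℕ × ℕ)) (h1 : x0 < m) (h2 : m ≤ m2)
    (t : List Bd) : ∀ b, (∀ e ∈ t, Good c e) → Good c b → 1 ≤ b.x →
      Inv (PP a m b.x) (TT c a m b.x) (go x0 (c x0) m2 (c m2) V0 t b) := by
  induction t with
  | nil => intro _ _ _ _; trivial
  | cons b' t ih =>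
    intro b ht g h0
    rw [go]
    cases b1 : Nat.ble m2 b.l
    · cases b2 : Nat.blt b.x b'.x
      · trivial
      · have b3 := Nat.blt_eq.mp b2
        exact h.blk_sound x0 m2 b b' _ h1 h2 g (ht b' (by simp)) h0 b3
          (ih b' (fun e he => ht e (by simp [he])) (ht b' (by simp)) (by omega))
    · have b3 := Nat.le_of_ble_eq_true b1
      have := (h.hc.II_mono.monotone (show m - 1 ≤ b.l - 1 by omega)).trans g.2.1
      have t0 : TT c a m b.x = 0 := by unfold TT; rw [Ioc_eq_empty (by omega), sum_empty]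
      rw [t0]
      exact Inv_zero _ _

noncomputable def ini (c : ℕ → ℕ) (x0 q : ℕ) : ℝ := 1 / (c q : ℝ) - 12 / (5 * x0)

lemma isum_sound (hc : IsC c) (x0 Q : ℕ) (hQ : II c Q ≤ x0) (hQ2 : Q < 6600) (n : ℕ) :
    ∀ q acc, 1 ≤ q → q + n ≤ Q + 1 → (isum (12 * SS / (5 * x0) + 1) n q acc : ℝ) ≤
      acc + (∑ r ∈ Ico q (q + n), ini c x0 r) * SS := by
  induction n with
  | zero => intro q acc _ _; simp [isum]
  | succ n ih =>
    intro q acc h1 h2
    simp only [isum, force_eq]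
    refine (ih (q + 1) _ (by omega) (by omega)).trans ?_
    rw [sum_eq_sum_Ico_succ_bot (show q < q + (n + 1) by omega),
      show q + 1 + n = q + (n + 1) by ring, Nat.cast_add acc, ← hc.tb_eq q (by omega)]
    have e0 := hc.kapR q x0 h1 ((hc.II_mono.monotone (by omega)).trans hQ)
    have e1 := div_up (12 * SS) (5 * x0) (by have := hc.II_ge Q; omega)
    have e2 : ((SS / c q : ℕ) : ℝ) ≤ SS / c q := Nat.cast_div_le
    have e3 : ini c x0 q * SS = SS / c q - ((12 * SS : ℕ) : ℝ) / ((5 * x0 : ℕ) : ℝ) := by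
      unfold ini; push_cast; ring
    have := sub_hi (SS / c q) (12 * SS / (5 * x0) + 1) (ini c x0 q * SS)
      (mul_nonneg (sub_nonneg.2 e0) SS_pos.le) (by linarith)
    linarith

lemma fin_sound (hc : IsC c) (x0 Q : ℕ) (hQ : II c Q ≤ x0) (hQ2 : Q < 6600) (z : ℕ) (T : ℝ)
    (l : List (ℕ × ℕ)) : ∀ hi acc : ℕ, hi ≤ Q + 1 →
      (acc : ℝ) ≤ (∑ r ∈ Ico hi (Q + 1), ini c x0 r) * SS →
      (∃ p', z < p' ∧ (acc : ℝ) ≤ (∑ r ∈ Ico p' (Q + 1), ini c x0 r) * SS) → Inv z T l →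
      fin (12 * SS / (5 * x0) + 1) l hi acc = true →
      ∃ p', z < p' ∧ T ≤ ∑ r ∈ Ico p' (Q + 1), ini c x0 r := by
  induction l with
  | nil => intro _ _ _ _ _ _ h; simp [fin] at h
  | cons e t ih =>
    obtain ⟨lo, v⟩ := e
    intro hi acc h1 h2 ⟨p', h3, h4⟩ h5 h6
    simp only [fin, force_eq, mn_eq, Bool.and_eq_true, Bool.or_eq_true, Nat.ble_eq,
      Nat.beq_eq] at h6
    unfold Inv at h5
    split_ifs at h5 with g
    · have : (v : ℝ) ≤ acc := by exact_mod_cast h6.1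
      exact ⟨p', h3, le_of_mul_le_mul_right (by linarith) SS_pos⟩
    · have h7 := h6.2.resolve_left (by omega)
      rcases le_total lo hi with g2 | g2
      · have := isum_sound hc x0 Q hQ hQ2 (hi - lo) lo acc (by omega) (by omega)
        rw [show lo + (hi - lo) = hi by omega] at this
        have e := sum_Ico_consecutive (ini c x0) g2 h1
        rw [min_eq_right g2] at h7
        have g3 : (isum (12 * SS / (5 * x0) + 1) (hi - lo) lo acc : ℝ) ≤
          (∑ r ∈ Ico lo (Q + 1), ini c x0 r) * SS := by rw [← e]; linarith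
        exact ih _ _ (by omega) g3 ⟨lo, by omega, g3⟩ h5 h7
      · rw [min_eq_left g2, show hi - lo = 0 by omega, isum] at h7
        exact ih _ _ h1 h2 ⟨p', h3, h4⟩ h5 h7

lemma Run.of_TT (h : Run c a k m) (hm : 25 ≤ m) (x0 Q p' : ℕ) (h0 : 1 ≤ x0) (h1 : x0 < m)
    (h2 : II c Q ≤ x0) (h3 : PP a m x0 < p')
    (H : TT c a m x0 ≤ ∑ r ∈ Ico p' (Q + 1), ini c x0 r) : Goal c a m := by
  refine h.acc0 hm ?_
  have e1 := h.strip x0 Q p' h0 h1 h2 h3
  have e2 : ∑ i ∈ Icc m (II c (m - 1)), gg c a m i ≤ ∑ i ∈ Ioc x0 (II c (m - 1)), gg c a m i :=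
    sum_le_sum_of_subset_of_nonneg (fun i => by simp only [mem_Icc, mem_Ioc]; omega)
      fun i _ _ => gg_nonneg i
  unfold TT ini at H
  rw [sum_sub_distrib] at H
  linarith

lemma Run.run_sound (h : Run c a k m) (cf rc : ℕ) (b0 b1 : Bd) (t : List Bd) (g0 : Good c b0)
    (g1 : Good c b1) (ht : ∀ e ∈ t, Good c e) (h1 : b0.x < m) (h2 : m ≤ b1.x)
    (H : run cf rc b0 b1 t = true) : Goal c a m := by
  simp only [run, Bool.and_eq_true, Nat.ble_eq, Nat.blt_eq] at H
  obtain ⟨⟨r1, r2⟩, r3⟩ := H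
  rw [g0.2.2.2, g1.2.2.2] at r3
  have l1 := g0.2.2.1
  obtain ⟨p', p1, p2⟩ := fin_sound h.hc b0.x (b0.l - 1) g0.2.1 (by omega) _ _ _ b0.l 0 (by omega)
    (by rw [Ico_eq_empty (by omega)]; simp)
    ⟨PP a m b0.x + b0.l, by omega, by rw [Ico_eq_empty (by omega)]; simp⟩
    (h.go_sound b0.x b1.x _ h1 h2 t b0 ht g0 (by omega)) r3
  exact h.of_TT (by omega) b0.x _ p' (by omega) h1 g0.2.1 p1 p2

lemma Run.allr_sound (h : Run c a k m) (cf rc xe : ℕ) (h2 : m ≤ xe) (ks : List ℕ) :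
    ∀ b t, Good c b → (∀ e ∈ t, Good c e) → b.x < m → allr cf rc xe ks b t = true →
      Goal c a m := by
  induction ks with
  | nil => intro b t _ _ h1 H; simp only [allr, Nat.ble_eq] at H; omega
  | cons n ks ih =>
    intro b t g ht h1 H
    rw [allr] at H
    cases e : t.drop n with
    | nil => rw [e] at H; simp at H
    | cons b1 t1 =>
      rw [e] at H
      simp only [Bool.and_eq_true] at H
      have hs : ∀ x ∈ b1 :: t1, Good c x := fun x hx => ht x (List.mem_of_mem_drop (e ▸ hx))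
      by_cases h3 : m ≤ b1.x
      · exact h.run_sound cf rc b b1 t g (hs b1 (by simp)) ht h1 h3 H.1
      · exact ih b1 t1 (hs b1 (by simp)) (fun x hx => hs x (by simp [hx])) (by omega) H.2

lemma Run.grid (h : Run c a k m) (cf rc xe : ℕ) (ks : List ℕ) (b : Bd) (t : List Bd)
    (o1 : (bchk b && t.all bchk) = true) (o2 : allr cf rc xe ks b t = true) (h1 : b.x < m)
    (h2 : m ≤ xe) : Goal c a m := by
  rw [Bool.and_eq_true, List.all_eq_true] at o1
  exact h.allr_sound cf rc xe h2 ks b t (bchk_sound h.hc b o1.1)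
    (fun e he => bchk_sound h.hc e (o1.2 e he)) h1 o2

lemma Run.mid (h : Run c a k m) (h2 : m ≤ 1642387) : Goal c a m := by
  by_cases a1 : m ≤ 24
  · exact h.small a1
  by_cases a2 : m ≤ 30
  · exact h.grid _ _ _ _ _ _ ok1a ok1b (by show 24 < m; omega) a2
  by_cases a3 : m ≤ 200
  · exact h.grid _ _ _ _ _ _ ok2a ok2b (by show 30 < m; omega) a3
  by_cases a4 : m ≤ 1000
  · exact h.grid _ _ _ _ _ _ ok3a ok3b (by show 200 < m; omega) a4
  · exact h.grid _ _ _ _ _ _ ok4a ok4b (by show 1000 < m; omega) h2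

end Pool.Agent.H.MP_189914_nt
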