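import Mathlib
import Pool.Agent.H.MP_189914_nt.G

namespace Pool.Agent.H.MP_189914_nt
open Finset Real

variable {c a : ℕ → ℕ} {k m : ℕ}

lemma minsum (M A : ℝ) (hM : 0 < M) (hA : 0 < A) (U : ℕ) : ∀ l : ℝ, 1 ≤ l → U ≤ l * (A * M) →
    ∑ u ∈ Ioc 0 U, min (1 / M) (A / u) ≤ A * (1 + log l) := by
  have triv : ∀ U : ℕ, ∑ u ∈ Ioc 0 U, min (1 / M) (A / u) ≤ U / M := fun U =>
    (sum_le_card_nsmul _ _ (1 / M) fun i _ => min_le_left _ _).trans
      (by rw [Nat.card_Ioc, nsmul_eq_mul, Nat.sub_zero, mul_one_div])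
  have B0 : 0 < A * M := by positivity
  induction U with
  | zero => intro l h1 _; have := log_nonneg h1; simp; positivity
  | succ U ih =>
    intro l h1 h2
    have l0 := log_nonneg h1
    by_cases h3 : ((U + 1 : ℕ) : ℝ) ≤ A * M
    · refine (triv _).trans ?_
      rw [div_le_iff₀ hM]
      nlinarith
    have u0 : (0 : ℝ) ≤ U := by positivity
    rw [sum_Ioc_succ_top (Nat.zero_le U)]
    have m1 := min_le_right (1 / M) (A / ((U + 1 : ℕ) : ℝ))
    push_cast at h2 h3 m1 ⊢
    have l1 : log ((U + 1) / (A * M)) ≤ log l :=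
      log_le_log (by positivity) (by rw [div_le_iff₀ B0]; exact h2)
    by_cases h4 : A * M ≤ U
    · have i1 := ih (U / (A * M)) (by rw [le_div_iff₀ B0]; linarith) (by field_simp; rfl)
      have up : (0 : ℝ) < U := by linarith
      have l2 : log (U / (U + 1) : ℝ) ≤ U / (U + 1) - 1 := log_le_sub_one_of_pos (by positivity)
      rw [log_div up.ne' (by positivity)] at l2
      rw [log_div up.ne' B0.ne'] at i1
      rw [log_div (by positivity) B0.ne'] at l1
      have e : (U : ℝ) / (U + 1) - 1 = -(1 / (U + 1)) := by field_simp; ring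
      have e2 : A / ((U : ℝ) + 1) = A * (1 / (U + 1)) := by ring
      nlinarith
    · have i1 := triv U
      have l2 := one_sub_inv_le_log_of_pos (show 0 < ((U : ℝ) + 1) / (A * M) by positivity)
      have l3 : U / M + A / ((U : ℝ) + 1) ≤ A * (1 + (1 - (((U : ℝ) + 1) / (A * M))⁻¹)) := by
        rw [inv_div, ← sub_nonneg]
        have : A * (1 + (1 - A * M / ((U : ℝ) + 1))) - (U / M + A / ((U : ℝ) + 1)) =
            (A * M - U) * (U + 1 - A * M) / (M * (U + 1)) := by field_simp; ring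
        rw [this]
        exact div_nonneg (mul_nonneg (by linarith) (by linarith)) (by positivity)
      nlinarith

lemma tail_le (x y : ℝ) (h1 : 1 ≤ y) (h : y ≤ x) :
    1 / x * (1 + log (2 * x)) ≤ 1 / y * (1 + log (2 * y)) := by
  have y0 : 0 < y := by linarith
  have x0 : 0 < x := by linarith
  have l1 : log (x / y) ≤ x / y - 1 := log_le_sub_one_of_pos (by positivity)
  have l2 : log (2 * x) = log (2 * y) + log (x / y) := by
    rw [← log_mul (by positivity) (by positivity)]; congr 1; field_simp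
  have l3 : 0 ≤ log (2 * y) := log_nonneg (by linarith)
  have l4 := one_div_le_one_div_of_le y0 h
  have l5 : 1 / x * (x / y) = 1 / y := by field_simp
  have l6 : 0 ≤ 1 / x := by positivity
  rw [l2]
  nlinarith

lemma Run.pos_le (h : Run c a k m) (hm : 400 ≤ m) (s : ℕ) (hs : m ≤ s) :
    ∑ i ∈ Icc s (II c (m - 1)), gg c a m i ≤
      12 / (7 * ((PP a m s : ℝ) + 1)) * (1 + log (PP a m s + 1)) +
        1 / ((m : ℝ) + 1) * (1 + log (2 * (m + 1))) := by
  obtain ⟨n, rfl⟩ : ∃ n, m = n + 1 := ⟨m - 1, by omega⟩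
  have r := h.hc.r3 n (by omega)
  have r2 := h.hc.succ_eq n
  have r3 : 6 * sl c n ≤ c (n + 1) := by nlinarith
  have g1 : ∀ i, s ≤ i → gg c a (n + 1) i ≤ 1 / (a i : ℝ) := fun i hi => by
    unfold gg
    rw [if_pos (by omega)]
    refine (min_le_left _ _).trans (max_le (by positivity) ?_)
    have : 0 ≤ 1 / (c i : ℝ) := by positivity
    linarith
  have g2 : ∀ i, s ≤ i → gg c a (n + 1) i ≤ 1 / ((c n + 1 : ℕ) : ℝ) := fun i hi =>
    (g1 i hi).trans (inv_le_inv_nat (by omega) (h.gtM i (by omega)))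
  have p0 : (0 : ℝ) ≤ PP a (n + 1) s := by positivity
  have m1 := minsum ((c n + 1 : ℕ) : ℝ) (12 / (7 * ((PP a (n + 1) s : ℝ) + 1))) (by positivity)
    (by positivity) (c (n + 1)) (PP a (n + 1) s + 1) (by linarith) (by
      have : 7 * (c (n + 1) : ℝ) ≤ 12 * (c n + 1 : ℕ) := by
        exact_mod_cast (show 7 * c (n + 1) ≤ 12 * (c n + 1) by omega)
      field_simp
      linarith)
  have m2 := minsum ((c n + 1 : ℕ) : ℝ) (1 / (((n + 1 : ℕ) : ℝ) + 1)) (by positivity)
    (by positivity) ((n + 1) * sl c n) (2 * (((n + 1 : ℕ) : ℝ) + 1))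
    (by have : (0 : ℝ) ≤ (n + 1 : ℕ) := by positivity
        linarith) (by
      have : (((n + 1) * sl c n : ℕ) : ℝ) ≤ 2 * (c n + 1 : ℕ) := by
        have t : (n + 1) * sl c n ≤ 2 * (c n + 1) := by rw [mul_assoc] at r; omega
        have t2 := (Nat.cast_le (α := ℝ)).2 t
        rwa [Nat.cast_mul 2, Nat.cast_ofNat] at t2
      field_simp
      linarith)
  refine le_trans ?_ (add_le_add m1 m2)
  have e := sum_filter_add_sum_filter_not (Icc s (II c (n + 1 - 1))) (fun i => i ≤ c (n + 1))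
    (gg c a (n + 1))
  rw [← e]
  refine add_le_add ?_ ?_
  · refine (sum_le_sum fun i hi => ?_).trans (sum_le_sum_of_subset_of_nonneg
      (fun i hi => ?_) fun _ _ _ => by positivity)
    · rw [mem_filter, mem_Icc] at hi
      refine le_min (g2 i hi.1.1) ((g1 i hi.1.1).trans ((h.ha.inv_le (n + 1) i (by omega)).trans ?_))
      have i0 : (0 : ℝ) < i := by exact_mod_cast (show 0 < i by omega)
      have i1 : (PP a (n + 1) s : ℝ) ≤ PP a (n + 1) i := Nat.cast_le.2 (PP_mono hi.1.1)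
      rw [div_div]
      exact div_le_div_of_nonneg_left (by norm_num) (by positivity)
        (mul_le_mul_of_nonneg_right (by linarith only [i1]) i0.le)
    · simp only [mem_filter, mem_Icc, mem_Ioc] at hi ⊢
      omega
  · have e2 : ∑ u ∈ Ioc 0 ((n + 1) * sl c n), min (1 / ((c n + 1 : ℕ) : ℝ))
        (1 / (((n + 1 : ℕ) : ℝ) + 1) / u) = ∑ i ∈ Ioc (c (n + 1)) (II c n),
        min (1 / ((c n + 1 : ℕ) : ℝ)) (1 / (((n + 1 : ℕ) : ℝ) + 1) / (i - c (n + 1) : ℕ)) := by
      rw [show Ioc (c (n + 1)) (II c n) = (Ioc 0 ((n + 1) * sl c n)).map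
        (addRightEmbedding (c (n + 1))) by
          rw [map_add_right_Ioc, zero_add, add_comm _ (c (n + 1))]; rfl, sum_map]
      simp
    rw [e2]
    refine (sum_le_sum fun i hi => ?_).trans (sum_le_sum_of_subset_of_nonneg
      (fun i hi => ?_) fun _ _ _ => by positivity)
    · rw [mem_filter, mem_Icc] at hi
      refine le_min (g2 i hi.1.1) ((g1 i hi.1.1).trans ?_)
      have b3 := h.le
      have := inv_le_inv_nat (Nat.mul_pos (by omega) (by omega))
        ((Nat.mul_le_mul le_rfl (show i - c (n + 1) ≤ i - a (n + 1) by omega)).trans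
          (h.ha.le i (n + 1)))
      rw [div_div]
      refine this.trans (le_of_eq ?_)
      push_cast; ring
    · simp only [mem_filter, mem_Icc, mem_Ioc, Nat.add_sub_cancel] at hi ⊢
      omega

def need (n : ℕ) : ℕ :=
  12 * SS * (40000 + 6932 * (Nat.log2 (n ^ 4) + 1)) / (280000 * n) + 1 + (SS / 100000 + 1)

def chk (K : ℕ) : ℕ → ℕ → Bool
  | 0, _ => true
  | n + 1, acc => force (n + 1) fun q => force (isum K 1 q acc) fun s =>
      (Nat.blt 1727 q || Nat.ble (need q) s) && chk K n s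

lemma chk_ok : chk (12 * SS / (5 * 1642386) + 1) 5800 0 = true := by decide +kernel

lemma IsC.II5800 (hc : IsC c) : II c 5800 = 1642386 := by
  rw [hc.tI_eq _ (by omega)]; decide +kernel

lemma chk_sound (hc : IsC c) (n : ℕ) : ∀ acc : ℕ, n ≤ 5800 →
    (acc : ℝ) ≤ (∑ r ∈ Ico (n + 1) 5801, ini c 1642386 r) * SS →
    chk (12 * SS / (5 * 1642386) + 1) n acc = true → ∀ q, 1 ≤ q → q ≤ n → q ≤ 1727 →
      (need q : ℝ) ≤ (∑ r ∈ Ico q 5801, ini c 1642386 r) * SS := by
  induction n with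
  | zero => intro _ _ _ _ q _ _; omega
  | succ n ih =>
    intro acc h1 h2 h3 q q1 q2 q3
    simp only [chk, force_eq, Bool.and_eq_true, Bool.or_eq_true, Nat.blt_eq, Nat.ble_eq] at h3
    have e := isum_sound hc 1642386 5800 hc.II5800.le (by omega) 1 (n + 1) acc (by omega) (by omega)
    have e2 := sum_Ico_consecutive (ini c 1642386) (show n + 1 ≤ n + 1 + 1 by omega)
      (show n + 1 + 1 ≤ 5801 by omega)
    have e3 : (isum (12 * SS / (5 * 1642386) + 1) 1 (n + 1) acc : ℝ) ≤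
        (∑ r ∈ Ico (n + 1) 5801, ini c 1642386 r) * SS := by rw [← e2]; linarith
    rcases q2.eq_or_lt with rfl | q2
    · exact le_trans (by exact_mod_cast h3.1.resolve_left (by omega)) e3
    · exact ih _ (by omega) e3 h3.2 q q1 (by omega) q3

lemma need_ge (n : ℕ) (hn : 1 ≤ n) :
    (12 / (7 * (n : ℝ)) * (1 + log n) + 1 / 100000) * SS ≤ need n := by
  have n0 : (0 : ℝ) < n := by exact_mod_cast hn
  have e1 := div_up (12 * SS * (40000 + 6932 * (Nat.log2 (n ^ 4) + 1))) (280000 * n) (by omega)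
  have e2 := div_up SS 100000 (by omega)
  have l1 : ((n : ℝ)) ^ 4 ≤ 2 ^ (Nat.log2 (n ^ 4) + 1) := by
    exact_mod_cast (Nat.lt_log2_self (n := n ^ 4)).le
  have l2 := log_le_log (by positivity) l1
  rw [log_pow, log_pow] at l2
  have l3 := log_two_lt_d9
  have l4 : (0 : ℝ) ≤ (Nat.log2 (n ^ 4) + 1 : ℕ) := by positivity
  unfold need
  rw [Nat.cast_add]
  generalize Nat.log2 (n ^ 4) + 1 = L at *
  have l5 : 1 + log n ≤ (40000 + 6932 * (L : ℝ)) / 40000 := by
    push_cast at l2; nlinarith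
  have l6 := mul_le_mul_of_nonneg_left l5 (show 0 ≤ 12 / (7 * (n : ℝ)) * SS by positivity)
  have l7 : 12 / (7 * (n : ℝ)) * SS * ((40000 + 6932 * (L : ℝ)) / 40000) =
      ((12 * SS * (40000 + 6932 * L) : ℕ) : ℝ) / ((280000 * n : ℕ) : ℝ) := by
    push_cast; field_simp; ring
  have l8 : ((100000 : ℕ) : ℝ) = 100000 := by norm_num
  rw [l8] at e2
  nlinarith

lemma case1 (hc : IsC c) (p m : ℕ) (hp : p + 1 ≤ 1727) (hm : 1642387 ≤ m) :
    12 / (7 * ((p : ℝ) + 1)) * (1 + log (p + 1)) + 1 / ((m : ℝ) + 1) * (1 + log (2 * (m + 1))) ≤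
      ∑ q ∈ Ico (p + 1) (5800 + 1), (1 / (c q : ℝ) - 12 / (5 * (m - 1 : ℕ))) := by
  have e1 := chk_sound hc 5800 0 le_rfl (by simp) chk_ok (p + 1) (by omega) (by omega) hp
  have e2 := le_of_mul_le_mul_right ((need_ge (p + 1) (by omega)).trans e1) SS_pos
  have r : (1642387 : ℝ) ≤ m := by exact_mod_cast hm
  have e3 := tail_le ((m : ℝ) + 1) 1642388 (by norm_num) (by linarith)
  have e4 : log (2 * 1642388) ≤ log (2 ^ 22) := log_le_log (by norm_num) (by norm_num)
  rw [log_pow] at e4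
  have l3 := log_two_lt_d9
  have e5 : ∑ r ∈ Ico (p + 1) 5801, ini c 1642386 r ≤
      ∑ q ∈ Ico (p + 1) (5800 + 1), (1 / (c q : ℝ) - 12 / (5 * (m - 1 : ℕ))) := by
    refine sum_le_sum fun q _ => sub_le_sub_left ?_ _
    have : ((1642386 : ℕ) : ℝ) ≤ (m - 1 : ℕ) := by exact_mod_cast (show 1642386 ≤ m - 1 by omega)
    exact div_le_div_of_nonneg_left (by norm_num) (by positivity) (by linarith)
  push_cast at e2 e4
  have e6 : 1 / 1642388 * (1 + log (2 * 1642388)) ≤ 1 / 100000 := by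
    generalize log (2 * 1642388) = L at *
    linarith
  exact (add_le_add le_rfl (e3.trans e6)).trans (e2.trans e5)

end Pool.Agent.H.MP_189914_nt
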