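import Mathlib
import Pool.Agent.H.MP_189914_nt.H

namespace Pool.Agent.H.MP_189914_nt
open Finset Real

variable {c a : ℕ → ℕ} {k m : ℕ}

lemma IsC.slq (hc : IsC c) (q : ℕ) (hq : 350 ≤ q) : (3 * q - 2) * sl c q ≤ 5 * c q := by
  have r := hc.r3 q hq
  rw [hc.succ_eq] at r
  obtain ⟨n, rfl⟩ : ∃ n, q = n + 1 := ⟨q - 1, by omega⟩
  rw [show 3 * (n + 1) - 2 = 3 * n + 1 by omega]
  nlinarith

lemma IsC.cube (hc : IsC c) (n : ℕ) (hn : 1727 ≤ n) : 1000000 * c (n + 1) ^ 3 ≤ 46656 * n ^ 5 := by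
  induction n, hn using Nat.le_induction with
  | base => rw [hc.tb_eq _ (by omega), show tb (1727 + 1) = 89474 by decide +kernel]; norm_num
  | succ n hn ih =>
    have r := hc.slq (n + 1) (by omega)
    rw [show 3 * (n + 1) - 2 = 3 * n + 1 by omega] at r
    have e1 : (3 * n + 1) * c (n + 1 + 1) ≤ (3 * n + 6) * c (n + 1) := by
      rw [hc.succ_eq (n + 1)]; nlinarith
    have e2 := Nat.pow_le_pow_left e1 3
    have e3 : (3 * n + 6) ^ 3 * n ^ 5 ≤ (3 * n + 1) ^ 3 * (n + 1) ^ 5 := by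
      obtain ⟨d, rfl⟩ : ∃ d, n = d + 10 := ⟨n - 10, by omega⟩
      ring_nf
      omega
    refine Nat.le_of_mul_le_mul_left ?_ (show 0 < (3 * n + 1) ^ 3 by positivity)
    rw [mul_pow, mul_pow] at e2
    calc (3 * n + 1) ^ 3 * (1000000 * c (n + 1 + 1) ^ 3)
        = 1000000 * ((3 * n + 1) ^ 3 * c (n + 1 + 1) ^ 3) := by ring
      _ ≤ 1000000 * ((3 * n + 6) ^ 3 * c (n + 1) ^ 3) := Nat.mul_le_mul_left _ e2
      _ = (3 * n + 6) ^ 3 * (1000000 * c (n + 1) ^ 3) := by ring
      _ ≤ (3 * n + 6) ^ 3 * (46656 * n ^ 5) := Nat.mul_le_mul_left _ ih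
      _ = 46656 * ((3 * n + 6) ^ 3 * n ^ 5) := by ring
      _ ≤ 46656 * ((3 * n + 1) ^ 3 * (n + 1) ^ 5) := Nat.mul_le_mul_left _ e3
      _ = _ := by ring

lemma IsC.II_cube (hc : IsC c) (q : ℕ) (hq : 1728 ≤ q) : II c q ^ 3 ≤ q ^ 5 := by
  obtain ⟨n, rfl⟩ : ∃ n, q = n + 1 := ⟨q - 1, by omega⟩
  have r := hc.slq (n + 1) (by omega)
  rw [show 3 * (n + 1) - 2 = 3 * n + 1 by omega] at r
  have e1 : 10 * II c (n + 1) ≤ 27 * c (n + 1) := by
    rw [hc.II_succ]
    have : 1727 * sl c (n + 1) ≤ n * sl c (n + 1) := Nat.mul_le_mul_right _ (by omega)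
    nlinarith
  have e2 := Nat.pow_le_pow_left e1 3
  have e3 := hc.cube n (by omega)
  have e4 := Nat.pow_le_pow_left (Nat.le_succ n) 5
  rw [mul_pow, mul_pow] at e2
  simp only [Nat.succ_eq_add_one] at e4
  omega

noncomputable def rt (q : ℕ) : ℝ := (q : ℝ) ^ ((3 : ℕ) : ℝ)⁻¹

lemma rt_cube (q : ℕ) : rt q ^ 3 = q := rpow_inv_natCast_pow (by positivity) (by norm_num)

lemma rt_pos {q : ℕ} (h : 1 ≤ q) : 0 < rt q :=
  rpow_pos_of_pos (by exact_mod_cast h) _

lemma rt_step (x y : ℝ) (hx : 0 < x) (hy : 0 < y) (h : y ^ 3 = x ^ 3 + 1) :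
    3 / 2 * (1 / x ^ 2 - 1 / y ^ 2) ≤ 1 / x ^ 5 := by
  have h1 : x ≤ y := le_of_pow_le_pow_left₀ (n := 3) (by norm_num) hy.le (by linarith)
  obtain ⟨d, rfl⟩ : ∃ d, y = x + d := ⟨y - x, by ring⟩
  have d0 : 0 ≤ d := by linarith
  have e : 1 / x ^ 5 - 3 / 2 * (1 / x ^ 2 - 1 / (x + d) ^ 2) =
      ((x + d) ^ 2 * ((x + d) ^ 3 - x ^ 3) - 3 / 2 * x ^ 3 * ((x + d) ^ 2 - x ^ 2)) /
        (x ^ 5 * (x + d) ^ 2) := by
    rw [h]; field_simp; ring
  rw [← sub_nonneg, e]
  refine div_nonneg ?_ (by positivity)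
  ring_nf
  positivity

lemma IsC.sumII (hc : IsC c) (n N : ℕ) (hn : 1728 ≤ n) (hN : n ≤ N) :
    3 / 2 * (1 / rt n ^ 2 - 1 / rt N ^ 2) ≤ ∑ q ∈ Ico n N, 1 / (II c q : ℝ) := by
  induction N, hN using Nat.le_induction with
  | base => simp
  | succ N hN ih =>
    rw [sum_Ico_succ_top hN]
    have p1 := rt_pos (show 1 ≤ N by omega)
    have e1 := rt_step (rt N) (rt (N + 1)) p1 (rt_pos (by omega))
      (by rw [rt_cube, rt_cube]; push_cast; ring)
    have e2 : (II c N : ℝ) ≤ rt N ^ 5 := by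
      refine le_of_pow_le_pow_left₀ (n := 3) (by norm_num) (by positivity) ?_
      rw [← pow_mul, mul_comm, pow_mul, rt_cube]
      exact_mod_cast hc.II_cube N (by omega)
    have e3 : (0 : ℝ) < II c N := by
      exact_mod_cast (show 0 < II c N by have := hc.II_ge N; omega)
    have := one_div_le_one_div_of_le e3 e2
    linarith

lemma IsC.Jbig (hc : IsC c) (n J s : ℕ) (hn : 1728 ≤ n) (h1 : n < J) (h2 : s ≤ II c J)
    (h3 : 7 * n * J ≤ 10 * s) : 30 * n ≤ J := by
  have r := (hc.rb J (by omega)).1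
  obtain ⟨u, u1, u2⟩ := hc.exW J (by omega)
  unfold II at h2
  rw [hc.sl_win J u u1 u2] at r h2
  have e1 : 21 * n * J ≤ 50 * (J + 1) * (u + 2) := by nlinarith
  have e2 : 41 * n ≤ 100 * (u + 2) := by
    by_contra hh
    have : 100 * (u + 2) ≤ 41 * n := by omega
    have : 100 * (J + 1) * (u + 2) ≤ 41 * n * (J + 1) := by nlinarith
    have : n * J ≤ 41 * n := by nlinarith
    nlinarith
  have a1 := hc.lo_ge u (by omega)
  have a2 := hc.ratio_mono 707 (u + 1) (by omega)
  rw [hc.tb_eq 707 (by omega), show tb 707 = 21413 by decide +kernel] at a2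
  omega

lemma fin_ineq (n m s : ℕ) (hn : 1728 ≤ n) (hm : 30 * n ≤ m) (hs : 21 * n * n ≤ s) :
    12 / (7 * (n : ℝ)) * (1 + log n) + 1 / ((m : ℝ) + 1) * (1 + log (2 * (m + 1))) ≤
      6 / 5 * (3 / 2 * (1 / rt n ^ 2 - 1 / rt (27 * n) ^ 2) - 26 * n * (1 / s)) := by
  have p1 := rt_pos (show 1 ≤ n by omega)
  have e1 : rt (27 * n) = 3 * rt n := by
    refine (pow_left_inj₀ (rt_pos (by omega)).le (by positivity) (show 3 ≠ 0 by norm_num)).1 ?_
    rw [mul_pow, rt_cube, rt_cube]; push_cast; ring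
  have r1 : (1728 : ℝ) ≤ n := by exact_mod_cast hn
  have r2 : 30 * (n : ℝ) ≤ m := by exact_mod_cast hm
  have r3 : 21 * (n : ℝ) * n ≤ s := by exact_mod_cast hs
  have e2 := tail_le ((m : ℝ) + 1) (30 * n) (by linarith) (by linarith)
  have e3 := one_div_le_one_div_of_le (by positivity) r3
  have e4 : 26 * (n : ℝ) * (1 / s) ≤ 26 / 21 * (1 / n) := by
    refine (mul_le_mul_of_nonneg_left e3 (by positivity)).trans (le_of_eq ?_)
    field_simp
  have c3 := rt_cube n
  rw [e1]
  generalize rt n = t at *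
  have t12 : 12 ≤ t := le_of_pow_le_pow_left₀ (n := 3) (by norm_num) p1.le (by linarith)
  have l3 := log_two_lt_d9
  have l1 : log t ≤ 4 * log 2 + (t / 16 - 1) := by
    have := log_le_sub_one_of_pos (show 0 < t / 16 by positivity)
    rw [log_div p1.ne' (by norm_num), show (16 : ℝ) = 2 ^ 4 by norm_num, log_pow] at this
    push_cast at this
    linarith
  have l2 : log n = 3 * log t := by rw [← c3, log_pow]; norm_num
  have l4 : log (2 * (30 * n)) ≤ 6 * log 2 + log n := by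
    have : log (2 * (30 * (n : ℝ))) ≤ log (2 ^ 6 * n) := log_le_log (by positivity) (by linarith)
    rw [log_mul (x := 2 ^ 6) (by norm_num) (by positivity), log_pow] at this
    exact_mod_cast this
  have f1 : 12 / (7 * (n : ℝ)) = 12 / 7 * (1 / n) := by field_simp
  have f2 : 1 / (30 * (n : ℝ)) = 1 / 30 * (1 / n) := by field_simp
  have f3 : 1 / t ^ 2 = t * (1 / n) := by rw [← c3]; field_simp
  have f4 : 1 / (3 * t) ^ 2 = 1 / 9 * (t * (1 / n)) := by rw [← c3]; field_simp; norm_num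
  have w0 : (0 : ℝ) ≤ 1 / n := by positivity
  rw [f1, f3, f4]
  rw [f2] at e2
  generalize 1 / (n : ℝ) = w at *
  have g1 : 12 / 7 * (1 + log n) + 1 / 30 * (1 + log (2 * (30 * n))) + 6 / 5 * (26 / 21) ≤
      8 / 5 * t := by linarith
  nlinarith [mul_le_mul_of_nonneg_left g1 w0]

lemma Run.large (h : Run c a k m) (hm : 1642387 ≤ m) : Goal c a m := by
  classical
  refine h.acc0 (by omega) ?_
  have s0 := h.strip (m - 1) 0 (PP a m (m - 1) + 1) (by omega) (by omega)
    (by rw [h.hc.II_zero]; omega) (by omega)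
  rw [Ico_eq_empty (a := PP a m (m - 1) + 1) (by omega), sum_empty, add_zero] at s0
  have eI : Ioc (m - 1) (II c (m - 1)) = Icc m (II c (m - 1)) := by ext; simp; omega
  have s1 : 0 ≤ ∑ i ∈ Icc m (II c (m - 1)), st c a m i :=
    sum_nonneg fun i hi => st_nonneg (by have := (mem_Icc.1 hi).1; omega)
  by_cases hb : ∃ i, m ≤ i ∧ i ≤ II c (m - 1) ∧ st c a m i / 2 < gg c a m i
  swap
  · rw [eI] at s0
    refine le_trans (sum_le_sum fun i hi => ?_) s0
    rw [mem_Icc] at hi
    have := st_nonneg (c := c) (a := a) (m := m) (show 2 ≤ i by omega)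
    have := not_lt.1 fun hh => hb ⟨i, hi.1, hi.2, hh⟩
    linarith
  obtain ⟨b1, b2, b3⟩ := Nat.find_spec hb
  have b4 := fun i => Nat.find_min hb (m := i)
  generalize Nat.find hb = s at *
  have e1 : ∑ i ∈ Icc m (II c (m - 1)), gg c a m i ≤
      (∑ i ∈ Icc m (II c (m - 1)), st c a m i) / 2 + ∑ i ∈ Icc s (II c (m - 1)), gg c a m i := by
    have : ∑ i ∈ Icc s (II c (m - 1)), gg c a m i =
        ∑ i ∈ Icc m (II c (m - 1)), if s ≤ i then gg c a m i else 0 := by
      rw [← sum_filter]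
      refine sum_congr ?_ fun _ _ => rfl
      ext; simp; omega
    rw [this, sum_div, ← sum_add_distrib]
    refine sum_le_sum fun i hi => ?_
    rw [mem_Icc] at hi
    have := st_nonneg (c := c) (a := a) (m := m) (show 2 ≤ i by omega)
    split_ifs with g
    · linarith
    · have := not_lt.1 fun hh => b4 i (by omega) ⟨hi.1, hi.2, hh⟩
      linarith
  have e2 := h.pos_le (by omega) s b1
  by_cases hp : PP a m s + 1 ≤ 1727
  · have e3 := case1 h.hc _ m hp hm
    have e4 := h.strip (m - 1) 5800 (PP a m s + 1) (by omega) (by omega)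
      (by rw [h.hc.II5800]; omega) (by have := PP_mono (a := a) (m := m) (show m - 1 ≤ s by omega)
                                       omega)
    rw [eI] at e4
    linarith
  · have j2 := JJ_le b2
    have j3 := h.hc.le_IJ s
    have b5 := b3.trans_le (gg_le_nd s)
    have r0 : (2 : ℝ) ≤ s := by exact_mod_cast (show 2 ≤ s by omega)
    have d1 : 0 < dd c a m s := by
      by_contra hh
      have : dd c a m s = 0 := by omega
      simp [st, nd, this] at b5
    have d2 : PP a m s + 1 < JJ c s := by unfold dd at d1; omega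
    have d3 : 7 * (PP a m s + 1) * JJ c s ≤ 10 * s := by
      unfold st nd at b5
      rw [tau_eq (by omega)] at b5
      have d0 : (0 : ℝ) < dd c a m s := by exact_mod_cast d1
      have J0 : (0 : ℝ) < JJ c s := by exact_mod_cast (show 0 < JJ c s by omega)
      have s1 : (0 : ℝ) < s - 1 := by linarith
      have e : (dd c a m s : ℝ) * (12 / (5 * s * (s - 1))) / 2 =
        12 * dd c a m s / (10 * (s - 1) * s) := by field_simp; ring
      rw [e, div_lt_div_iff_of_pos_left (by positivity) (by positivity) (by positivity)] at b5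
      have := lt_of_mul_lt_mul_right b5 (by positivity)
      have : 7 * ((PP a m s : ℝ) + 1) * JJ c s ≤ 10 * s := by linarith
      exact_mod_cast this
    have d4 := h.hc.Jbig (PP a m s + 1) _ s (by omega) d2 j3 d3
    have e3 := fin_ineq (PP a m s + 1) m s (by omega) (by omega) (by
      have := Nat.mul_le_mul_left (7 * (PP a m s + 1)) d4
      generalize PP a m s + 1 = n at this d3 ⊢
      linarith only [this, d3])
    have e4 := h.hc.sumII (PP a m s + 1) (27 * (PP a m s + 1)) (by omega) (by omega)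
    have e5 : ∑ q ∈ Ico (PP a m s + 1) (27 * (PP a m s + 1)),
        12 / 5 * (1 / (II c q : ℝ) - 1 / s) ≤ ∑ q ∈ Ico 1 m, cr2 c a m q := by
      refine (sum_le_sum fun q hq => ?_).trans (sum_le_sum_of_subset_of_nonneg
        (fun q => by simp only [mem_Ico]; omega) fun q hq _ => (le_max_left _ _).trans
          (h.cr2_ge q _ (mem_Ico.1 hq).1 (mem_Ico.1 hq).2 le_rfl))
      rw [mem_Ico] at hq
      refine le_trans ?_ ((le_max_right _ _).trans (h.cr2_ge q _ (by omega) (by omega) le_rfl))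
      have g1 : 5 * (s : ℝ) ≤ 12 * a q := by
        exact_mod_cast (PP_lt (show PP a m s < q by omega) (by omega)).le
      have g2 : 1 / (a q : ℝ) ≤ 12 / 5 * (1 / s) := by
        rw [div_mul_div_comm, div_le_div_iff₀ (by linarith) (by positivity)]; linarith
      rw [← div_div]
      linarith [show 12 / 5 / (II c q : ℝ) = 12 / 5 * (1 / II c q) by ring]
    rw [← mul_sum, sum_sub_distrib, sum_const, Nat.card_Ico, nsmul_eq_mul,
      show 27 * (PP a m s + 1) - (PP a m s + 1) = 26 * (PP a m s + 1) by omega] at e5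
    rw [eI] at s0
    push_cast at e3 e5
    linarith

lemma Run.goal (h : Run c a k m) : Goal c a m := by
  by_cases hm : m ≤ 1642387
  · exact h.mid hm
  · exact h.large (by omega)

theorem main (χ : ℕ → ℤ) (h1 : χ 1 = 1)
    (h2 : ∀ i : ℕ, 2 ≤ i →
        (∀ j : ℕ, 1 ≤ j → j < i → ((j : ℤ) + 1) * ((i : ℤ) - χ j) ≤ χ i) ∧
        (∃ j : ℕ, 1 ≤ j ∧ j < i ∧ χ i = ((j : ℤ) + 1) * ((i : ℤ) - χ j)))
    (a : ℕ → ℕ) (ha : ∀ i j, 1 ≤ i → 1 ≤ j → (j + 1) * i ≤ a i + (j + 1) * a j) :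
    (∑' k : ℕ, ((a (k + 1) : ENNReal))⁻¹) ≤ ∑' k : ℕ, (((χ (k + 1)).toNat : ENNReal))⁻¹ := by
  have ge : ∀ i : ℕ, 1 ≤ i → (i : ℤ) ≤ χ i := by
    intro i hi
    rcases hi.eq_or_lt with rfl | hi
    · simp [h1]
    · have := (h2 i hi).1 1 le_rfl hi
      rw [h1] at this
      omega
  let c : ℕ → ℕ := fun i => if i = 0 then 0 else (χ i).toNat
  have cz : ∀ i, 1 ≤ i → (c i : ℤ) = χ i := fun i hi => by
    have := ge i hi
    simp only [c]; rw [if_neg (by omega)]; omega
  have c0 : c 0 = 0 := rfl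
  have hc : IsC c := by
    refine ⟨rfl, fun i j hij => ?_, fun i hi => ?_⟩
    · have g := ge i (by omega)
      have e := cz i (by omega)
      rcases Nat.eq_zero_or_pos j with rfl | hj
      · rw [c0]; omega
      · have := (h2 i (by omega)).1 j hj hij
        rw [← cz j hj, ← e] at this
        by_cases h3 : c j ≤ i
        · zify [h3]; exact this
        · rw [show i - c j = 0 by omega]; simp
    · rcases hi.eq_or_lt with rfl | hi
      · have := cz 1 le_rfl
        exact ⟨0, by omega, by rw [c0]; omega⟩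
      · obtain ⟨j, j1, j2, j3⟩ := (h2 i hi).2
        have g := ge i (by omega)
        rw [← cz j j1, ← cz i (by omega)] at j3
        rw [← cz i (by omega)] at g
        have h3 : c j ≤ i := by
          by_contra hh
          have : ((j : ℤ) + 1) * (i - c j) ≤ 0 :=
            mul_nonpos_of_nonneg_of_nonpos (by positivity) (by omega)
          omega
        exact ⟨j, j2, by zify [h3]; exact j3⟩
  have pos : ∀ i, 1 ≤ i → 0 < a i := by
    intro i hi
    have := ha i i hi hi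
    by_contra hh
    rw [show a i = 0 by omega] at this
    nlinarith
  have cv : ∀ (f : ℕ → ℕ) (N : ℕ), (∀ i, 0 < f i) → ∑ i ∈ range N, ((f i : ENNReal))⁻¹ =
      ENNReal.ofReal (∑ i ∈ range N, 1 / (f i : ℝ)) := by
    intro f N hf
    rw [ENNReal.ofReal_sum_of_nonneg fun _ _ => by positivity]
    refine sum_congr rfl fun i _ => ?_
    rw [one_div, ENNReal.ofReal_inv_of_pos (by exact_mod_cast hf i), ENNReal.ofReal_natCast]
  rw [ENNReal.tsum_eq_iSup_nat]
  refine iSup_le fun N => le_trans ?_ (ENNReal.sum_le_tsum (range N))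
  have key := unsorted hc (fun _ _ _ h => h.goal) N a ha
  rw [cv (fun i => a (i + 1)) N fun i => pos _ (by omega)]
  refine (ENNReal.ofReal_le_ofReal key).trans (le_of_eq ?_)
  rw [← cv (fun i => c (i + 1)) N fun i => by have := hc.ge (i + 1); omega]
  rfl

end Pool.Agent.H.MP_189914_nt
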